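import Pool.Agent.Lib.MP484c84Par.Basic

/-!
# Counting edges

Edges `(v, w)` with `Im (conj v * w) = 1` and given `m = Re (conj v * w)` are at most `4 τ(m^2+1)`.
-/

namespace Pool.Agent.MP484c84Par

/-- real part of `conj v * w` -/
def dotG (v w : GaussianInt) : ℤ := v.re * w.re + v.im * w.im

lemma dot_cross (v w : GaussianInt) :
    dotG v w ^ 2 + crossG v w ^ 2 = v.norm * w.norm := by
  rw [norm_def', norm_def']; unfold dotG crossG; ring

lemma sq_add_sq_one {s t : ℤ} (h : s ^ 2 + t ^ 2 = 1) :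
    (t = 1 ∧ s = 0) ∨ (t = -1 ∧ s = 0) ∨ (t = 0 ∧ s = 1) ∨ (t = 0 ∧ s = -1) := by
  have h1 : -1 ≤ s := by nlinarith
  have h2 : s ≤ 1 := by nlinarith
  have h3 : -1 ≤ t := by nlinarith
  have h4 : t ≤ 1 := by nlinarith
  interval_cases s <;> interval_cases t <;> simp at h ⊢

/-- two edges with the same `m` and the same norm of the first vertex differ by a unit -/
lemma fiber_unit {v w v' w' : GaussianInt} (hv : v ≠ 0) (h1 : crossG v w = 1)
    (h1' : crossG v' w' = 1) (hm : dotG v w = dotG v' w') (hd : v.norm = v'.norm) :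
    ∃ e ∈ ({⟨1, 0⟩, ⟨-1, 0⟩, ⟨0, 1⟩, ⟨0, -1⟩} : Finset GaussianInt), v' = v * e ∧ w' = w * e := by
  obtain ⟨a, b⟩ := v
  obtain ⟨c, d⟩ := w
  obtain ⟨a', b'⟩ := v'
  obtain ⟨c', d'⟩ := w'
  have hNpos : 0 < a * a + b * b := by
    have := norm_pos' hv
    rw [norm_def'] at this
    exact this
  rw [norm_def', norm_def'] at hd
  simp only [crossG, dotG] at h1 h1' hm hd
  set N := a * a + b * b with hN
  have e1 : N * c = a * (a * c + b * d) - b := by
    rw [hN]; linear_combination (-b) * h1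
  have e2 : N * d = b * (a * c + b * d) + a := by
    rw [hN]; linear_combination a * h1
  have e1' : N * c' = a' * (a * c + b * d) - b' := by
    rw [hd, hm]; linear_combination (-b') * h1'
  have e2' : N * d' = b' * (a * c + b * d) + a' := by
    rw [hd, hm]; linear_combination a' * h1'
  set m := a * c + b * d with hmdef
  -- N divides cross and dot
  have hs : a * b' - b * a' = N * (c * a' - a * c') := by
    linear_combination (-a') * e1 + a * e1'
  have ht : a * a' + b * b' = N * (b' * c' * 0 + (a' * d - b * c')) := by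
    linear_combination (-a') * e2 + b * e1'
  set s := c * a' - a * c' with hsdef
  set t := b' * c' * 0 + (a' * d - b * c') with htdef
  have hsum : N ^ 2 * (s ^ 2 + t ^ 2) = N ^ 2 := by
    have : (a * b' - b * a') ^ 2 + (a * a' + b * b') ^ 2 = (a * a + b * b) * (a' * a' + b' * b') := by
      ring
    rw [hs, ht, ← hd, ← hN] at this
    linear_combination this
  have hst : s ^ 2 + t ^ 2 = 1 := by
    have h2 : N ^ 2 ≠ 0 := by positivity
    have : N ^ 2 * (s ^ 2 + t ^ 2 - 1) = 0 := by linear_combination hsum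
    rcases mul_eq_zero.1 this with h | h
    · exact absurd h h2
    · linarith
  -- recover v'
  have hv1 : a' = a * t - b * s := by
    have : N * a' = N * (a * t - b * s) := by
      rw [hN]
      linear_combination a * ht - b * hs
    exact mul_left_cancel₀ hNpos.ne' this
  have hv2 : b' = a * s + b * t := by
    have : N * b' = N * (a * s + b * t) := by
      rw [hN]
      linear_combination a * hs + b * ht
    exact mul_left_cancel₀ hNpos.ne' this
  have hw1 : c' = c * t - d * s := by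
    have : N * c' = N * (c * t - d * s) := by
      linear_combination e1' - t * e1 + s * e2 + m * hv1 - hv2
    exact mul_left_cancel₀ hNpos.ne' this
  have hw2 : d' = c * s + d * t := by
    have : N * d' = N * (c * s + d * t) := by
      linear_combination e2' - s * e1 - t * e2 + m * hv2 + hv1
    exact mul_left_cancel₀ hNpos.ne' this
  refine ⟨⟨t, s⟩, ?_, ?_, ?_⟩
  · rcases sq_add_sq_one hst with ⟨h5, h6⟩ | ⟨h5, h6⟩ | ⟨h5, h6⟩ | ⟨h5, h6⟩ <;>
      rw [h5, h6] <;> simp
  · rw [Zsqrtd.ext_iff]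
    refine ⟨?_, ?_⟩
    · simp only [Zsqrtd.re_mul]; rw [hv1]; ring
    · simp only [Zsqrtd.im_mul]; rw [hv2]
  · rw [Zsqrtd.ext_iff]
    refine ⟨?_, ?_⟩
    · simp only [Zsqrtd.re_mul]; rw [hw1]; ring
    · simp only [Zsqrtd.im_mul]; rw [hw2]

/-- the `n ≤ x` with `g (n^2+1) = ε` -/
def signSet (g : ℕ → ℤ) (ε : ℤ) (x : ℕ) : Finset ℕ :=
  (Finset.Icc 1 x).filter (fun n => g (n ^ 2 + 1) = ε)

/-- all edges of norm at most `x` with `F v * F w = ε` and `Re (conj v * w) ≠ 0` -/
noncomputable def edges (g : ℕ → ℤ) (ε : ℤ) (x : ℕ) : Finset (GaussianInt × GaussianInt) :=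
  (ballG x ×ˢ ballG x).filter
    (fun p => crossG p.1 p.2 = 1 ∧ dotG p.1 p.2 ≠ 0 ∧ F g p.1 * F g p.2 = ε)

lemma mem_edges {g : ℕ → ℤ} {ε : ℤ} {x : ℕ} {p : GaussianInt × GaussianInt} :
    p ∈ edges g ε x ↔ p.1.norm ≤ x ∧ p.2.norm ≤ x ∧ crossG p.1 p.2 = 1 ∧ dotG p.1 p.2 ≠ 0 ∧
      F g p.1 * F g p.2 = ε := by
  simp [edges, mem_ballG, and_assoc]

lemma ne_zero_of_cross {v w : GaussianInt} (h : crossG v w = 1) : v ≠ 0 ∧ w ≠ 0 := by
  constructor
  · rintro rfl; simp [crossG] at h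
  · rintro rfl; simp [crossG] at h

lemma mul_eq_mk {v w : GaussianInt} (h : crossG v w = 1) : star v * w = ⟨dotG v w, 1⟩ := by
  rw [Zsqrtd.ext_iff]
  refine ⟨by simp [dotG], ?_⟩
  rw [← crossG_eq, h]

theorem card_edges_le {g : ℕ → ℤ} (h : CM g) (ε : ℤ) (x : ℕ) :
    (edges g ε x).card ≤ 8 * ∑ n ∈ signSet g ε x, (n ^ 2 + 1).divisors.card := by
  classical
  set T : Finset ((_ : ℕ) × ℕ) := (signSet g ε x).sigma (fun n => (n ^ 2 + 1).divisors) with hT
  set U : Finset (((_ : ℕ) × ℕ) × ℤ) := T ×ˢ ({1, -1} : Finset ℤ) with hU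
  let f : GaussianInt × GaussianInt → ((_ : ℕ) × ℕ) × ℤ :=
    fun p => (⟨(dotG p.1 p.2).natAbs, p.1.norm.natAbs⟩, (dotG p.1 p.2).sign)
  have hmaps : ∀ p ∈ edges g ε x, f p ∈ U := by
    intro p hp
    obtain ⟨h1, h2, h3, h4, h5⟩ := mem_edges.1 hp
    obtain ⟨hv, hw⟩ := ne_zero_of_cross h3
    have hdc := dot_cross p.1 p.2
    rw [h3] at hdc
    have hnn : p.1.norm * p.2.norm ≤ x * x :=
      mul_le_mul h1 h2 (norm_nonneg' _) (by positivity)
    have hFm : F g p.1 * F g p.2 = g ((dotG p.1 p.2).natAbs ^ 2 + 1) := by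
      rw [← F_mul_star h hv hw, mul_eq_mk h3, F_mk_one]
    simp only [hU, hT, f, Finset.mem_product, Finset.mem_sigma, signSet, Finset.mem_filter,
      Finset.mem_Icc, Nat.mem_divisors]
    refine ⟨⟨⟨⟨by omega, ?_⟩, ?_⟩, ?_, by positivity⟩, ?_⟩
    · have : (dotG p.1 p.2).natAbs ^ 2 ≤ x ^ 2 := by
        have : ((dotG p.1 p.2).natAbs ^ 2 : ℤ) ≤ x ^ 2 := by
          rw [Int.natCast_natAbs, sq_abs]; nlinarith
        exact_mod_cast this
      exact (Nat.pow_le_pow_iff_left (by norm_num)).1 this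
    · rw [← hFm]; exact h5
    · have hi : ((dotG p.1 p.2).natAbs ^ 2 + 1 : ℤ) = p.1.norm * p.2.norm := by
        rw [← hdc, Int.natCast_natAbs, sq_abs]; norm_num
      have : (p.1.norm.natAbs : ℤ) ∣ ((dotG p.1 p.2).natAbs ^ 2 + 1 : ℕ) := by
        push_cast
        rw [show (|dotG p.1 p.2| ^ 2 + 1 : ℤ) = p.1.norm * p.2.norm from by
          rw [← hi, Int.natCast_natAbs]]
        rw [abs_of_nonneg (norm_nonneg' _)]
        exact Dvd.intro _ rfl
      exact_mod_cast this
    · rcases lt_trichotomy (dotG p.1 p.2) 0 with h6 | h6 | h6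
      · rw [Int.sign_eq_neg_one_of_neg h6]; simp
      · exact absurd h6 h4
      · rw [Int.sign_eq_one_of_pos h6]; simp
  have hfib : ∀ b ∈ U, ((edges g ε x).filter (fun p => f p = b)).card ≤ 4 := by
    intro b _
    rcases ((edges g ε x).filter (fun p => f p = b)).eq_empty_or_nonempty with he | ⟨p0, hp0⟩
    · rw [he]; simp
    · rw [Finset.mem_filter] at hp0
      have hsub : (edges g ε x).filter (fun p => f p = b) ⊆
          (({⟨1, 0⟩, ⟨-1, 0⟩, ⟨0, 1⟩, ⟨0, -1⟩} : Finset GaussianInt)).image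
            (fun e => (p0.1 * e, p0.2 * e)) := by
        intro p hp
        rw [Finset.mem_filter] at hp
        obtain ⟨h1, h2, h3, h4, h5⟩ := mem_edges.1 hp0.1
        obtain ⟨h1', h2', h3', h4', h5'⟩ := mem_edges.1 hp.1
        have heq : f p = f p0 := by rw [hp.2, hp0.2]
        simp only [f, Prod.mk.injEq, Sigma.mk.injEq, heq_eq_eq] at heq
        obtain ⟨⟨hq1, hq2⟩, hq3⟩ := heq
        have hdot : dotG p0.1 p0.2 = dotG p.1 p.2 := by
          rw [← Int.sign_mul_natAbs (dotG p0.1 p0.2), ← Int.sign_mul_natAbs (dotG p.1 p.2), hq1, hq3]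
        have hnorm : p0.1.norm = p.1.norm := by
          have n1 := norm_nonneg' p0.1
          have n2 := norm_nonneg' p.1
          omega
        obtain ⟨e, he, he1, he2⟩ := fiber_unit (ne_zero_of_cross h3).1 h3 h3' hdot hnorm
        rw [Finset.mem_image]
        exact ⟨e, he, by rw [← he1, ← he2]⟩
      refine (Finset.card_le_card hsub).trans (Finset.card_image_le.trans ?_)
      exact Finset.card_le_four
  have hcard := Finset.card_le_mul_card_image_of_maps_to hmaps 4 hfib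
  have hUc : U.card = 2 * ∑ n ∈ signSet g ε x, (n ^ 2 + 1).divisors.card := by
    rw [hU, Finset.card_product, hT, Finset.card_sigma, mul_comm]
    congr 1
  rw [hUc] at hcard
  omega

lemma badEdges_subset {g : ℕ → ℤ} (h : CM g) (x : ℕ) : badEdges g x ⊆ edges g (-1) x := by
  intro p hp
  obtain ⟨h1, h2, h3, h4⟩ := mem_badEdges.1 hp
  obtain ⟨hv, hw⟩ := ne_zero_of_cross h3
  have h5 := (F_ne_iff h hv hw).1 h4
  refine mem_edges.2 ⟨h1, h2, h3, ?_, h5⟩
  intro h0
  have hFm : F g p.1 * F g p.2 = g ((dotG p.1 p.2).natAbs ^ 2 + 1) := by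
    rw [← F_mul_star h hv hw, mul_eq_mk h3, F_mk_one]
  rw [h0, h5] at hFm
  have := h.one
  simp at hFm
  omega

theorem card_badEdges_le {g : ℕ → ℤ} (h : CM g) (x : ℕ) :
    (badEdges g x).card ≤ 8 * ∑ n ∈ signSet g (-1) x, (n ^ 2 + 1).divisors.card :=
  (Finset.card_le_card (badEdges_subset h x)).trans (card_edges_le h (-1) x)

end Pool.Agent.MP484c84Par
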