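import Mathlib

/-!
# Second moment of the divisor function over `m ^ 2 + 1`
-/

namespace Pool.Agent.MP484c84Par

open Real

/-- number of divisors -/
def tau (n : ℕ) : ℕ := n.divisors.card

lemma tau_mul_le (m n : ℕ) : tau (m * n) ≤ tau m * tau n := by
  unfold tau
  rw [Nat.divisors_mul]
  exact Finset.card_mul_le

lemma tau_prime {p : ℕ} (hp : p.Prime) : tau p = 2 := by
  unfold tau
  rw [hp.divisors, Finset.card_pair hp.one_lt.ne]

lemma tau_pos {n : ℕ} (hn : n ≠ 0) : 1 ≤ tau n := by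
  unfold tau
  exact Finset.card_pos.2 ⟨1, by simp [hn]⟩

/-- every `n` has a divisor `d ≤ √n` with `τ(n) ≤ 2 τ(d)^2` -/
lemma exists_divisor_tau {n : ℕ} (hn : 1 ≤ n) :
    ∃ d, d ∣ n ∧ d * d ≤ n ∧ tau n ≤ 2 * tau d ^ 2 := by
  classical
  set S := n.divisors.filter (fun d => d * d ≤ n) with hS
  have hne : S.Nonempty := ⟨1, by simp [hS]; omega⟩
  obtain ⟨d, hdS, hmax⟩ := S.exists_max_image id hne
  rw [hS, Finset.mem_filter, Nat.mem_divisors] at hdS
  obtain ⟨⟨⟨e, he⟩, hn0⟩, hdd⟩ := hdS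
  rcases Nat.lt_or_ge e 2 with he2 | he2
  · have he0 : e ≠ 0 := by rintro rfl; simp at he; omega
    have he1 : e = 1 := by omega
    refine ⟨d, ⟨e, he⟩, hdd, ?_⟩
    rw [he1, mul_one] at he
    have := tau_pos hn0
    rw [← he]
    rw [he] at this
    nlinarith
  · obtain ⟨p, hp, e', he'⟩ := Nat.exists_prime_and_dvd (show e ≠ 1 by omega)
    have hd0 : 0 < d := by
      rcases Nat.eq_zero_or_pos d with h | h
      · rw [h] at he; simp at he; omega
      · exact h
    have he'0 : 0 < e' := by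
      rcases Nat.eq_zero_or_pos e' with h | h
      · rw [h] at he'; omega
      · exact h
    have hp2 := hp.two_le
    have hn2 : n = (d * p) * e' := by rw [he, he']; ring
    have he'n : e' * e' ≤ n := by
      by_contra hcon
      push Not at hcon
      have h1 : d * p < e' := by
        by_contra h2
        push Not at h2
        have : e' * e' ≤ (d * p) * e' := Nat.mul_le_mul_right _ h2
        omega
      have h2 : (d * p) * (d * p) ≤ n := by
        rw [hn2]
        exact Nat.mul_le_mul_left _ h1.le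
      have h3 : d * p ∈ S := by
        rw [hS, Finset.mem_filter, Nat.mem_divisors]
        exact ⟨⟨⟨e', hn2⟩, hn0⟩, h2⟩
      have h4 := hmax _ h3
      simp only [id] at h4
      nlinarith
    have hτ : tau n ≤ 2 * (tau d * tau e') := by
      rw [hn2]
      calc tau (d * p * e') ≤ tau (d * p) * tau e' := tau_mul_le _ _
        _ ≤ (tau d * tau p) * tau e' := Nat.mul_le_mul_right _ (tau_mul_le _ _)
        _ = 2 * (tau d * tau e') := by rw [tau_prime hp]; ring
    rcases le_total (tau d) (tau e') with h | h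
    · refine ⟨e', ⟨d * p, by rw [hn2]; ring⟩, he'n, hτ.trans ?_⟩
      nlinarith
    · refine ⟨d, ⟨e, he⟩, hdd, hτ.trans ?_⟩
      nlinarith

/-- integers of `[1,x]` in a residue class -/
lemma card_class_le (x L v : ℕ) (hL : 0 < L) :
    (((Finset.Icc 1 x).filter (fun m => m ≡ v [MOD L])).card : ℝ) ≤ x / L + 1 := by
  have h1 : Finset.Icc 1 x = Finset.Ioc 0 x := by ext; simp; omega
  rw [h1]
  have h2 := Nat.Ioc_filter_modEq_card 0 x hL v
  have h3 : ((((Finset.Ioc 0 x).filter (fun m => m ≡ v [MOD L])).card : ℤ) : ℚ) ≤ (x : ℚ) / L + 1 := by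
    rw [h2]
    push_cast
    apply max_le
    · have h4 := Int.floor_le (((x : ℚ) - v) / L)
      have h5 := Int.lt_floor_add_one (((0 : ℕ) - v : ℚ) / L)
      have h6 : ((x : ℚ) - v) / L = x / L + (((0 : ℕ) : ℚ) - v) / L := by push_cast; ring
      push_cast at h4 h5 h6 ⊢
      linarith
    · positivity
  have h4 : ((((Finset.Ioc 0 x).filter (fun m => m ≡ v [MOD L])).card : ℚ) : ℝ) ≤
      (((x : ℚ) / L + 1 : ℚ) : ℝ) := by exact_mod_cast h3
  push_cast at h4
  exact h4

/-- roots of `m^2+1` modulo `d` up to `x` -/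
lemma card_roots_le (x d : ℕ) (hd : 0 < d) :
    (((Finset.Icc 1 x).filter (fun m => d ∣ m ^ 2 + 1)).card : ℝ) ≤ tau d * (2 * x / d + 1) := by
  classical
  set S := (Finset.Icc 1 x).filter (fun m => d ∣ m ^ 2 + 1) with hS
  rcases S.eq_empty_or_nonempty with he | ⟨m0, hm0⟩
  · rw [he]; simp; positivity
  · rw [hS, Finset.mem_filter] at hm0
    obtain ⟨_, hm0d⟩ := hm0
    -- cover by classes
    have hfib : ∀ e ∈ d.divisors, ((S.filter (fun m : ℕ => Int.gcd d (m - m0) = e)).card : ℝ) ≤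
        2 * x / d + 1 := by
      intro e he
      rw [Nat.mem_divisors] at he
      obtain ⟨f, hf⟩ := he.1
      have he0 : 0 < e := Nat.pos_of_dvd_of_pos he.1 hd
      have hf0 : 0 < f := by
        rcases Nat.eq_zero_or_pos f with h | h
        · rw [h] at hf; omega
        · exact h
      set L := Nat.lcm e f with hL
      have hL0 : 0 < L := Nat.lcm_pos he0 hf0
      rcases (S.filter (fun m : ℕ => Int.gcd d (m - m0) = e)).eq_empty_or_nonempty with hem | ⟨m1, hm1⟩
      · rw [hem]; simp; positivity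
      · have key : ∀ m ∈ S.filter (fun m : ℕ => Int.gcd d (m - m0) = e),
            (e : ℤ) ∣ (m : ℤ) - m0 ∧ (f : ℤ) ∣ (m : ℤ) + m0 := by
          intro m hm
          rw [Finset.mem_filter, hS, Finset.mem_filter] at hm
          obtain ⟨⟨_, hmd⟩, hg⟩ := hm
          have h1 : (e : ℤ) ∣ (m : ℤ) - m0 := by
            rw [← hg]; exact Int.gcd_dvd_right _ _
          refine ⟨h1, ?_⟩
          obtain ⟨c, hc⟩ := h1
          have h2 : (d : ℤ) ∣ ((m : ℤ) - m0) * (m + m0) := by
            have h3 : (d : ℤ) ∣ (m : ℤ) ^ 2 + 1 := by exact_mod_cast hmd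
            have h4 : (d : ℤ) ∣ (m0 : ℤ) ^ 2 + 1 := by exact_mod_cast hm0d
            have h5 := dvd_sub h3 h4
            have h6 : ((m : ℤ) ^ 2 + 1) - ((m0 : ℤ) ^ 2 + 1) = ((m : ℤ) - m0) * (m + m0) := by ring
            rwa [h6] at h5
          have hdf : (d : ℤ) = e * f := by exact_mod_cast hf
          rw [hc, hdf, mul_assoc] at h2
          have he0' : (e : ℤ) ≠ 0 := by exact_mod_cast he0.ne'
          have h3 : (f : ℤ) ∣ c * (m + m0) := (mul_dvd_mul_iff_left he0').1 h2
          have h4 : Int.gcd f c = 1 := by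
            have h5 : Int.gcd (e * f) (e * c) = e := by rw [← hdf, ← hc]; exact hg
            rw [Int.gcd_mul_left] at h5
            simp only [Int.natAbs_natCast] at h5
            have : e * Int.gcd f c = e * 1 := by rw [h5, mul_one]
            exact Nat.eq_of_mul_eq_mul_left he0 this
          exact Int.dvd_of_dvd_mul_right_of_gcd_one h3 h4
        have hgcd : Nat.gcd e f ∣ 2 := by
          obtain ⟨k1, k2⟩ := key m1 hm1
          have h1 : ((Nat.gcd e f : ℕ) : ℤ) ∣ 2 * m0 := by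
            have a1 : ((Nat.gcd e f : ℕ) : ℤ) ∣ (m1 : ℤ) - m0 :=
              (Int.natCast_dvd_natCast.2 (Nat.gcd_dvd_left e f)).trans k1
            have a2 : ((Nat.gcd e f : ℕ) : ℤ) ∣ (m1 : ℤ) + m0 :=
              (Int.natCast_dvd_natCast.2 (Nat.gcd_dvd_right e f)).trans k2
            have := dvd_sub a2 a1
            have h6 : ((m1 : ℤ) + m0) - ((m1 : ℤ) - m0) = 2 * m0 := by ring
            rwa [h6] at this
          have h1' : Nat.gcd e f ∣ 2 * m0 := by exact_mod_cast h1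
          have h2 : Nat.Coprime (Nat.gcd e f) m0 := by
            have h3 : Nat.gcd e f ∣ m0 ^ 2 + 1 :=
              ((Nat.gcd_dvd_left e f).trans he.1).trans hm0d
            have h4 : Nat.Coprime (m0 ^ 2 + 1) m0 := by
              have : Nat.Coprime (1 + m0 * m0) m0 := by
                rw [Nat.coprime_add_mul_left_left]; exact Nat.coprime_one_left _
              have h5 : m0 ^ 2 + 1 = 1 + m0 * m0 := by ring
              rw [h5]; exact this
            exact Nat.Coprime.coprime_dvd_left h3 h4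
          exact h2.dvd_of_dvd_mul_right h1'
        have hdL : d ≤ 2 * L := by
          have h1 : Nat.gcd e f * L = e * f := Nat.gcd_mul_lcm e f
          have h2 : Nat.gcd e f ≤ 2 := Nat.le_of_dvd (by norm_num) hgcd
          rw [hf, ← h1]
          exact Nat.mul_le_mul_right _ h2
        have hsub : S.filter (fun m : ℕ => Int.gcd d (m - m0) = e) ⊆
            (Finset.Icc 1 x).filter (fun m => m ≡ m1 [MOD L]) := by
          intro m hm
          have hmS : m ∈ Finset.Icc 1 x := by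
            have := (Finset.mem_filter.1 hm).1
            rw [hS] at this
            exact (Finset.mem_filter.1 this).1
          rw [Finset.mem_filter]
          refine ⟨hmS, ?_⟩
          obtain ⟨a1, a2⟩ := key m hm
          obtain ⟨b1, b2⟩ := key m1 hm1
          have c1 : (e : ℤ) ∣ (m1 : ℤ) - m := by
            have := dvd_sub b1 a1
            have h6 : ((m1 : ℤ) - m0) - ((m : ℤ) - m0) = m1 - m := by ring
            rwa [h6] at this
          have c2 : (f : ℤ) ∣ (m1 : ℤ) - m := by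
            have := dvd_sub b2 a2
            have h6 : ((m1 : ℤ) + m0) - ((m : ℤ) + m0) = m1 - m := by ring
            rwa [h6] at this
          rw [Nat.modEq_iff_dvd]
          rw [Int.natCast_dvd] at c1 c2 ⊢
          exact Nat.lcm_dvd c1 c2
        have h1 := card_class_le x L m1 hL0
        have h2 : ((S.filter (fun m : ℕ => Int.gcd d (m - m0) = e)).card : ℝ) ≤
            (((Finset.Icc 1 x).filter (fun m => m ≡ m1 [MOD L])).card : ℝ) := by
          exact_mod_cast Finset.card_le_card hsub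
        refine h2.trans (h1.trans ?_)
        have hd' : (0 : ℝ) < d := by exact_mod_cast hd
        have hL' : (0 : ℝ) < L := by exact_mod_cast hL0
        have hdL' : (d : ℝ) ≤ 2 * L := by exact_mod_cast hdL
        have : (x : ℝ) / L ≤ 2 * x / d := by
          rw [div_le_div_iff₀ hL' hd']
          have hx0 : (0 : ℝ) ≤ x := Nat.cast_nonneg x
          nlinarith
        linarith
    have hcover : S.card = ∑ e ∈ d.divisors, (S.filter (fun m : ℕ => Int.gcd d (m - m0) = e)).card := by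
      apply Finset.card_eq_sum_card_fiberwise
      intro m _
      simp only [Finset.mem_coe, Nat.mem_divisors]
      refine ⟨?_, hd.ne'⟩
      have := Int.gcd_dvd_left (d : ℤ) ((m : ℤ) - m0)
      exact_mod_cast this
    rw [hcover]
    push_cast
    refine (Finset.sum_le_card_nsmul _ _ _ hfib).trans ?_
    rw [nsmul_eq_mul]
    rfl

lemma sum_tau_pow (x k : ℕ) :
    ∑ d ∈ Finset.Icc 1 x, ((tau d : ℝ) ^ (k + 1)) / d ≤
      (∑ d ∈ Finset.Icc 1 x, ((tau d : ℝ) ^ k) / d) ^ 2 := by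
  classical
  have h1 : ∀ d ∈ Finset.Icc 1 x, ((tau d : ℝ) ^ (k + 1)) / d ≤
      ∑ p ∈ d.divisorsAntidiagonal, ((tau p.1 : ℝ) ^ k / p.1) * ((tau p.2 : ℝ) ^ k / p.2) := by
    intro d hd
    have hd1 : 1 ≤ d := (Finset.mem_Icc.1 hd).1
    have h2 : ((tau d : ℝ) ^ (k + 1)) / d = ∑ p ∈ d.divisorsAntidiagonal, ((tau d : ℝ) ^ k) / d := by
      rw [Finset.sum_const, nsmul_eq_mul, ← Nat.map_div_right_divisors, Finset.card_map, pow_succ]
      unfold tau
      ring
    rw [h2]
    apply Finset.sum_le_sum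
    intro p hp
    rw [Nat.mem_divisorsAntidiagonal] at hp
    obtain ⟨hp1, hp2⟩ := hp
    rw [div_mul_div_comm, ← mul_pow, ← hp1]
    push_cast
    have h3 : ((tau (p.1 * p.2) : ℕ) : ℝ) ≤ tau p.1 * tau p.2 := by
      exact_mod_cast tau_mul_le p.1 p.2
    gcongr
  refine (Finset.sum_le_sum h1).trans ?_
  rw [sq, Finset.sum_mul_sum, ← Finset.sum_product', Finset.sum_sigma']
  have hinj : Set.InjOn (fun s : (_ : ℕ) × (ℕ × ℕ) => s.2)
      ((Finset.Icc 1 x).sigma (fun d => d.divisorsAntidiagonal) : Finset ((_ : ℕ) × (ℕ × ℕ))) := by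
    rintro ⟨d, p⟩ h1 ⟨d', p'⟩ h2 h3
    simp only [Finset.mem_coe, Finset.mem_sigma, Nat.mem_divisorsAntidiagonal] at h1 h2 h3
    obtain ⟨_, h1, _⟩ := h1
    obtain ⟨_, h2, _⟩ := h2
    subst h3
    rw [h1] at h2
    subst h2
    rfl
  have h3 := Finset.sum_image (f := fun p : ℕ × ℕ => ((tau p.1 : ℝ) ^ k / p.1) * ((tau p.2 : ℝ) ^ k / p.2)) hinj
  rw [← h3]
  apply Finset.sum_le_sum_of_subset_of_nonneg
  · intro p hp
    rw [Finset.mem_image] at hp
    obtain ⟨⟨d, p'⟩, hs, rfl⟩ := hp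
    rw [Finset.mem_sigma, Nat.mem_divisorsAntidiagonal] at hs
    obtain ⟨hd, hpd, hd0⟩ := hs
    simp only at hd hpd hd0 ⊢
    rw [Finset.mem_Icc] at hd
    rw [Finset.mem_product, Finset.mem_Icc, Finset.mem_Icc]
    have a1 : p'.1 ≠ 0 := by rintro h; rw [h] at hpd; simp at hpd; omega
    have a2 : p'.2 ≠ 0 := by rintro h; rw [h] at hpd; simp at hpd; omega
    have a3 : p'.1 ≤ d := Nat.le_of_dvd (by omega) ⟨_, hpd.symm⟩
    have a4 : p'.2 ≤ d := Nat.le_of_dvd (by omega) ⟨p'.1, by rw [← hpd]; ring⟩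
    omega
  · intro p _ _
    positivity

lemma sum_tau_le (x k : ℕ) :
    ∑ d ∈ Finset.Icc 1 x, ((tau d : ℝ) ^ k) / d ≤ (1 + log x) ^ (2 ^ k) := by
  induction k with
  | zero =>
    simp only [pow_zero, pow_one]
    have h := harmonic_le_one_add_log x
    rw [harmonic_eq_sum_Icc] at h
    push_cast at h
    simpa [one_div] using h
  | succ k ih =>
    refine (sum_tau_pow x k).trans ?_
    rw [pow_succ 2 k, pow_mul]
    apply pow_le_pow_left₀ _ ih
    apply Finset.sum_nonneg
    intro d _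
    positivity

/-- second moment of the divisor function over `m^2+1` -/
theorem second_moment (x : ℕ) (hx : 1 ≤ x) :
    ∑ m ∈ Finset.Icc 1 x, ((tau (m ^ 2 + 1) : ℝ)) ^ 2 ≤ 12 * x * (1 + log x) ^ 32 := by
  classical
  have h1 : ∀ m ∈ Finset.Icc 1 x, ((tau (m ^ 2 + 1) : ℝ)) ^ 2 ≤
      4 * ∑ d ∈ (Finset.Icc 1 x).filter (fun d => d ∣ m ^ 2 + 1), (tau d : ℝ) ^ 4 := by
    intro m hm
    rw [Finset.mem_Icc] at hm
    obtain ⟨d, hd1, hd2, hd3⟩ := exists_divisor_tau (n := m ^ 2 + 1) (by omega)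
    have hdx : d ≤ x := by
      by_contra hcon
      push Not at hcon
      have : (m + 1) * (m + 1) ≤ d * d := Nat.mul_le_mul (by omega) (by omega)
      nlinarith
    have hd0 : 1 ≤ d := Nat.pos_of_dvd_of_pos hd1 (by positivity)
    have h2 : ((tau (m ^ 2 + 1) : ℝ)) ^ 2 ≤ 4 * (tau d : ℝ) ^ 4 := by
      have : (tau (m ^ 2 + 1) : ℝ) ≤ 2 * (tau d : ℝ) ^ 2 := by exact_mod_cast hd3
      calc ((tau (m ^ 2 + 1) : ℝ)) ^ 2 ≤ (2 * (tau d : ℝ) ^ 2) ^ 2 :=
            pow_le_pow_left₀ (Nat.cast_nonneg _) this 2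
        _ = 4 * (tau d : ℝ) ^ 4 := by ring
    refine h2.trans ?_
    apply mul_le_mul_of_nonneg_left _ (by norm_num)
    exact Finset.single_le_sum (f := fun d => (tau d : ℝ) ^ 4) (fun i _ => by positivity)
      (Finset.mem_filter.2 ⟨Finset.mem_Icc.2 ⟨hd0, hdx⟩, hd1⟩)
  refine (Finset.sum_le_sum h1).trans ?_
  rw [← Finset.mul_sum]
  have h2 : ∑ m ∈ Finset.Icc 1 x, ∑ d ∈ (Finset.Icc 1 x).filter (fun d => d ∣ m ^ 2 + 1), (tau d : ℝ) ^ 4
      = ∑ d ∈ Finset.Icc 1 x, (((Finset.Icc 1 x).filter (fun m => d ∣ m ^ 2 + 1)).card : ℝ) * (tau d : ℝ) ^ 4 := by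
    simp_rw [Finset.sum_filter]
    rw [Finset.sum_comm]
    apply Finset.sum_congr rfl
    intro d _
    rw [← Finset.sum_filter, Finset.sum_const, nsmul_eq_mul]
  rw [h2]
  have h3 : ∀ d ∈ Finset.Icc 1 x, (((Finset.Icc 1 x).filter (fun m => d ∣ m ^ 2 + 1)).card : ℝ) *
      (tau d : ℝ) ^ 4 ≤ 3 * x * ((tau d : ℝ) ^ 5 / d) := by
    intro d hd
    rw [Finset.mem_Icc] at hd
    have hd' : (0 : ℝ) < d := by exact_mod_cast hd.1
    have hdx : (d : ℝ) ≤ x := by exact_mod_cast hd.2
    have h4 := card_roots_le x d hd.1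
    have h5 : 2 * (x : ℝ) / d + 1 ≤ 3 * x / d := by
      rw [div_add_one hd'.ne', div_le_div_iff_of_pos_right hd']
      linarith
    calc (((Finset.Icc 1 x).filter (fun m => d ∣ m ^ 2 + 1)).card : ℝ) * (tau d : ℝ) ^ 4
        ≤ (tau d * (3 * x / d)) * (tau d : ℝ) ^ 4 := by
          apply mul_le_mul_of_nonneg_right _ (by positivity)
          refine h4.trans ?_
          apply mul_le_mul_of_nonneg_left h5 (Nat.cast_nonneg _)
      _ = 3 * x * ((tau d : ℝ) ^ 5 / d) := by ring
  have h6 := Finset.sum_le_sum h3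
  rw [← Finset.mul_sum] at h6
  have h7 := sum_tau_le x 5
  norm_num at h7
  have hx0 : (0 : ℝ) ≤ x := Nat.cast_nonneg x
  calc 4 * ∑ d ∈ Finset.Icc 1 x, (((Finset.Icc 1 x).filter (fun m => d ∣ m ^ 2 + 1)).card : ℝ) * (tau d : ℝ) ^ 4
      ≤ 4 * (3 * x * ∑ d ∈ Finset.Icc 1 x, (tau d : ℝ) ^ 5 / d) := by linarith
    _ ≤ 4 * (3 * x * (1 + log x) ^ 32) := by gcongr
    _ = 12 * x * (1 + log x) ^ 32 := by ring

/-- Cauchy-Schwarz: a lower bound for the size of a set of `n` from the divisor sum -/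
theorem card_lower {x : ℕ} (hx : 1 ≤ x) {A : Finset ℕ} (hA : A ⊆ Finset.Icc 1 x) :
    ((∑ n ∈ A, (tau (n ^ 2 + 1) : ℝ))) ^ 2 ≤ A.card * (12 * x * (1 + log x) ^ 32) := by
  refine (sq_sum_le_card_mul_sum_sq).trans ?_
  apply mul_le_mul_of_nonneg_left _ (Nat.cast_nonneg _)
  refine le_trans ?_ (second_moment x hx)
  exact Finset.sum_le_sum_of_subset_of_nonneg hA (fun i _ _ => by positivity)

end Pool.Agent.MP484c84Par
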