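import Pool.Agent.Lib.MP484c84Par.Edges
import Pool.Agent.Lib.MP484c84Par.Divs

/-!
# Unimodular triangles give many good edges
-/

namespace Pool.Agent.MP484c84Par

open Real

lemma sum_inv_sq_le (B : ℕ) (hB : 2 ≤ B) :
    ∑ d ∈ Finset.Icc 2 B, (1 : ℝ) / (d : ℝ) ^ 2 ≤ 3 / 4 - 1 / B := by
  induction B, hB using Nat.le_induction with
  | base => norm_num
  | succ B hB ih =>
    rw [Finset.sum_Icc_succ_top (by omega)]
    have hB' : (0 : ℝ) < B := by
      have : 0 < B := by omega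
      exact_mod_cast this
    have h1 : (1 : ℝ) / ((B + 1 : ℕ) : ℝ) ^ 2 ≤ 1 / B - 1 / ((B + 1 : ℕ) : ℝ) := by
      push_cast
      rw [div_sub_div _ _ hB'.ne' (by positivity), div_le_div_iff₀ (by positivity) (by positivity)]
      nlinarith
    linarith

/-- coprime pairs in a square -/
def copr (B : ℕ) : Finset (ℕ × ℕ) :=
  (Finset.Icc 1 B ×ˢ Finset.Icc 1 B).filter (fun p => Nat.Coprime p.1 p.2)

lemma card_mult_le (B d : ℕ) :
    ((Finset.Icc 1 B).filter (fun a => d ∣ a)).card ≤ B / d := by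
  have h1 : Finset.Icc 1 B = Finset.Ioc 0 B := by ext; simp; omega
  rw [h1, Nat.Ioc_filter_dvd_card_eq_div]

lemma card_copr (B : ℕ) : (B : ℝ) ^ 2 / 4 ≤ (copr B).card := by
  classical
  have h0 : (Finset.Icc 1 B ×ˢ Finset.Icc 1 B) \ copr B ⊆
      (Finset.Icc 2 B).biUnion (fun d => ((Finset.Icc 1 B).filter (fun a => d ∣ a)) ×ˢ
        ((Finset.Icc 1 B).filter (fun a => d ∣ a))) := by
    intro p hp
    rw [Finset.mem_sdiff, copr, Finset.mem_filter, Finset.mem_product, Finset.mem_Icc,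
      Finset.mem_Icc] at hp
    obtain ⟨⟨⟨h1, h2⟩, h3, h4⟩, h5⟩ := hp
    have h6 : ¬ Nat.Coprime p.1 p.2 := fun h => h5 ⟨⟨⟨h1, h2⟩, h3, h4⟩, h⟩
    rw [Finset.mem_biUnion]
    refine ⟨Nat.gcd p.1 p.2, ?_, ?_⟩
    · rw [Finset.mem_Icc]
      have h7 : Nat.gcd p.1 p.2 ≤ p.1 := Nat.gcd_le_left _ (by omega)
      have h8 : 0 < Nat.gcd p.1 p.2 := Nat.gcd_pos_of_pos_left _ (by omega)
      have h9 : Nat.gcd p.1 p.2 ≠ 1 := h6
      omega
    · rw [Finset.mem_product, Finset.mem_filter, Finset.mem_filter, Finset.mem_Icc, Finset.mem_Icc]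
      exact ⟨⟨⟨h1, h2⟩, Nat.gcd_dvd_left _ _⟩, ⟨h3, h4⟩, Nat.gcd_dvd_right _ _⟩
  have h1 : (((Finset.Icc 1 B ×ˢ Finset.Icc 1 B) \ copr B).card : ℝ) ≤ 3 / 4 * (B : ℝ) ^ 2 := by
    have h2 : (((Finset.Icc 1 B ×ˢ Finset.Icc 1 B) \ copr B).card : ℝ) ≤
        ∑ d ∈ Finset.Icc 2 B, (((Finset.Icc 1 B).filter (fun a => d ∣ a)) ×ˢ
        ((Finset.Icc 1 B).filter (fun a => d ∣ a))).card := by
      exact_mod_cast (Finset.card_le_card h0).trans Finset.card_biUnion_le
    refine h2.trans ?_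
    push_cast
    have h3 : ∀ d ∈ Finset.Icc 2 B, ((((Finset.Icc 1 B).filter (fun a => d ∣ a)) ×ˢ
        ((Finset.Icc 1 B).filter (fun a => d ∣ a))).card : ℝ) ≤ (B : ℝ) ^ 2 * (1 / (d : ℝ) ^ 2) := by
      intro d hd
      rw [Finset.mem_Icc] at hd
      have hd0 : 0 < d := by omega
      have hd' : (0 : ℝ) < d := by exact_mod_cast hd0
      rw [Finset.card_product]
      push_cast
      have h4 : ((((Finset.Icc 1 B).filter (fun a => d ∣ a))).card : ℝ) ≤ B / d := by
        have h5 : ((((Finset.Icc 1 B).filter (fun a => d ∣ a))).card : ℝ) ≤ ((B / d : ℕ) : ℝ) := by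
          exact_mod_cast card_mult_le B d
        exact h5.trans Nat.cast_div_le
      calc _ ≤ ((B : ℝ) / d) * (B / d) := by gcongr
        _ = _ := by field_simp
    refine (Finset.sum_le_sum h3).trans ?_
    rw [← Finset.mul_sum]
    rcases Nat.lt_or_ge B 2 with hB | hB
    · rw [Finset.Icc_eq_empty (by omega)]
      simp
    · have h4 := sum_inv_sq_le B hB
      have h5 : (0 : ℝ) ≤ 1 / B := by positivity
      nlinarith [sq_nonneg (B : ℝ)]
  have h2 : ((Finset.Icc 1 B ×ˢ Finset.Icc 1 B).card : ℝ) = (B : ℝ) ^ 2 := by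
    rw [Finset.card_product, Nat.card_Icc]; simp; ring
  have h3 : (copr B) ⊆ (Finset.Icc 1 B ×ˢ Finset.Icc 1 B) := Finset.filter_subset _ _
  have h4 : ((Finset.Icc 1 B ×ˢ Finset.Icc 1 B).card : ℝ) =
      (((Finset.Icc 1 B ×ˢ Finset.Icc 1 B) \ copr B).card : ℝ) + (copr B).card := by
    rw [← Nat.cast_add, Finset.card_sdiff_add_card_eq_card h3]
  linarith

/-- a unimodular partner of small norm -/
lemma exists_partner {a b : ℤ} (hab : IsCoprime a b) (hN : 0 < a * a + b * b) :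
    ∃ w : GaussianInt, crossG ⟨a, b⟩ w = 1 ∧ w.norm ≤ a * a + b * b := by
  obtain ⟨u, v, huv⟩ := hab
  -- a * u + b * v = 1 ; take w0 = (-v, u)
  set N := a * a + b * b with hNdef
  set r0 := a * (-v) + b * u with hr0
  have key : ∃ t : ℤ, (2 * (r0 + t * N)) ^ 2 ≤ N ^ 2 := by
    have h1 := Int.emod_nonneg r0 hN.ne'
    have h2 := Int.emod_lt_of_pos r0 hN
    have h3 : r0 % N = r0 - N * (r0 / N) := Int.emod_def r0 N
    rcases le_total (2 * (r0 % N)) N with h4 | h4
    · refine ⟨-(r0 / N), ?_⟩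
      have : r0 + -(r0 / N) * N = r0 % N := by rw [h3]; ring
      rw [this]
      nlinarith
    · refine ⟨-(r0 / N) - 1, ?_⟩
      have : r0 + (-(r0 / N) - 1) * N = r0 % N - N := by rw [h3]; ring
      rw [this]
      nlinarith
  obtain ⟨t, ht⟩ := key
  refine ⟨⟨-v + t * a, u + t * b⟩, ?_, ?_⟩
  · unfold crossG
    show a * (u + t * b) - b * (-v + t * a) = 1
    linear_combination huv
  · have h1 := dot_cross (⟨a, b⟩ : GaussianInt) ⟨-v + t * a, u + t * b⟩
    have h2 : crossG (⟨a, b⟩ : GaussianInt) ⟨-v + t * a, u + t * b⟩ = 1 := by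
      unfold crossG
      show a * (u + t * b) - b * (-v + t * a) = 1
      linear_combination huv
    have h3 : dotG (⟨a, b⟩ : GaussianInt) ⟨-v + t * a, u + t * b⟩ = r0 + t * N := by
      unfold dotG
      show a * (-v + t * a) + b * (u + t * b) = _
      rw [hr0, hNdef]; ring
    have h4 : (⟨a, b⟩ : GaussianInt).norm = N := by rw [norm_def']
    rw [h2, h3, h4] at h1
    by_contra hcon
    push Not at hcon
    nlinarith

lemma norm_add_le' (v w : GaussianInt) : (v + w).norm ≤ 2 * v.norm + 2 * w.norm := by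
  rw [norm_def', norm_def', norm_def']
  simp only [Zsqrtd.re_add, Zsqrtd.im_add]
  nlinarith [sq_nonneg (v.re - w.re), sq_nonneg (v.im - w.im)]

lemma norm_sub_le' (v w : GaussianInt) : (v - w).norm ≤ 2 * v.norm + 2 * w.norm := by
  rw [norm_def', norm_def', norm_def']
  simp only [Zsqrtd.re_sub, Zsqrtd.im_sub]
  nlinarith [sq_nonneg (v.re + w.re), sq_nonneg (v.im + w.im)]

lemma dot_ne_zero {v w : GaussianInt} (h : crossG v w = 1) (h2 : 1 < v.norm ∨ 1 < w.norm) :
    dotG v w ≠ 0 := by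
  intro h0
  have h1 := dot_cross v w
  rw [h, h0] at h1
  obtain ⟨hv, hw⟩ := ne_zero_of_cross h
  have h3 := norm_pos' hv
  have h4 := norm_pos' hw
  rcases h2 with h2 | h2 <;> nlinarith

lemma cross_add_right (v w : GaussianInt) : crossG v (v + w) = crossG v w := by
  unfold crossG; simp only [Zsqrtd.re_add, Zsqrtd.im_add]; ring

lemma cross_add_left (v w : GaussianInt) : crossG (v + w) w = crossG v w := by
  unfold crossG; simp only [Zsqrtd.re_add, Zsqrtd.im_add]; ring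

lemma mk_mem_edges {g : ℕ → ℤ} {ε : ℤ} {x : ℕ} {v w : GaussianInt} (h1 : v.norm ≤ x)
    (h2 : w.norm ≤ x) (h3 : crossG v w = 1) (h4 : 1 < v.norm ∨ 1 < w.norm)
    (h5 : F g v * F g w = ε) : (v, w) ∈ edges g ε x :=
  mem_edges.2 ⟨h1, h2, h3, dot_ne_zero h3 h4, h5⟩

/-- the vectors used -/
def vecs (B : ℕ) : Finset GaussianInt :=
  ((copr B).erase (1, 1)).image (fun p => (⟨p.1, p.2⟩ : GaussianInt))

lemma card_vecs (B : ℕ) : (B : ℝ) ^ 2 / 4 - 1 ≤ (vecs B).card := by
  unfold vecs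
  rw [Finset.card_image_of_injective]
  · have h1 := card_copr B
    have h2 : (copr B).card ≤ ((copr B).erase (1, 1)).card + 1 := by
      have := Finset.pred_card_le_card_erase (s := copr B) (a := (1, 1))
      omega
    have h3 : ((copr B).card : ℝ) ≤ ((copr B).erase (1, 1)).card + 1 := by exact_mod_cast h2
    linarith
  · rintro ⟨a, b⟩ ⟨c, d⟩ h
    simp only [Zsqrtd.mk.injEq, Nat.cast_inj] at h
    rw [h.1, h.2]

lemma vecs_subset {g : ℕ → ℤ} (h : CM g) {x B : ℕ} (hB : 8 * B ^ 2 ≤ x) :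
    vecs B ⊆ (edges g 1 x).image Prod.fst ∪ (edges g 1 x).image (fun p => p.1 - p.2) := by
  intro v hv
  unfold vecs copr at hv
  simp only [Finset.mem_image, Finset.mem_erase, Finset.mem_filter, Finset.mem_product,
    Finset.mem_Icc, Prod.exists, ne_eq, Prod.mk.injEq, not_and] at hv
  obtain ⟨a, b, ⟨hne, ⟨⟨ha1, ha2⟩, hb1, hb2⟩, hcop⟩, rfl⟩ := hv
  have hcop' : IsCoprime (a : ℤ) (b : ℤ) := Nat.isCoprime_iff_coprime.2 hcop
  have ha' : (1 : ℤ) ≤ a := by exact_mod_cast ha1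
  have hb' : (1 : ℤ) ≤ b := by exact_mod_cast hb1
  have hN5 : 5 ≤ (a : ℤ) * a + b * b := by
    rcases Nat.lt_or_ge 1 a with h2 | h2
    · have : (2 : ℤ) ≤ a := by exact_mod_cast h2
      nlinarith
    · have ha1' : a = 1 := by omega
      have hb1' : b ≠ 1 := hne ha1'
      have : (2 : ℤ) ≤ b := by
        have : 2 ≤ b := by omega
        exact_mod_cast this
      nlinarith
  obtain ⟨w, hw1, hw2⟩ := exists_partner hcop' (by omega)
  set v : GaussianInt := ⟨a, b⟩ with hv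
  have hvn : v.norm = (a : ℤ) * a + b * b := by rw [norm_def']
  have hx4 : 4 * v.norm ≤ x := by
    rw [hvn]
    have h1 : (a : ℤ) ≤ B := by exact_mod_cast ha2
    have h2 : (b : ℤ) ≤ B := by exact_mod_cast hb2
    have h3 : 8 * (B : ℤ) ^ 2 ≤ x := by exact_mod_cast hB
    nlinarith
  have hv0 : v ≠ 0 := (ne_zero_of_cross hw1).1
  have hw0 : w ≠ 0 := (ne_zero_of_cross hw1).2
  rw [← hvn] at hw2 hN5
  have hvw := norm_add_le' v w
  have hc2 : crossG v (v + w) = 1 := (cross_add_right v w).trans hw1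
  have hc3 : crossG (v + w) w = 1 := (cross_add_left v w).trans hw1
  have hvw0 : v + w ≠ 0 := (ne_zero_of_cross hc2).2
  have hvw2 := norm_sub_le' (v + w) w
  rw [add_sub_cancel_right] at hvw2
  have e1 : F g v * F g w = 1 → (v, w) ∈ edges g 1 x := fun hF =>
    mk_mem_edges (by omega) (by omega) hw1 (Or.inl (by omega)) hF
  have e2 : F g v * F g (v + w) = 1 → (v, v + w) ∈ edges g 1 x := fun hF =>
    mk_mem_edges (by omega) (by omega) hc2 (Or.inl (by omega)) hF
  have e3 : F g (v + w) * F g w = 1 → (v + w, w) ∈ edges g 1 x := fun hF =>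
    mk_mem_edges (by omega) (by omega) hc3 (by omega) hF
  rw [Finset.mem_union, Finset.mem_image, Finset.mem_image]
  rcases F_sign h hv0 with s1 | s1 <;> rcases F_sign h hw0 with s2 | s2
  · exact Or.inl ⟨(v, w), e1 (by simp [s1, s2]), rfl⟩
  · rcases F_sign h hvw0 with s3 | s3
    · exact Or.inl ⟨(v, v + w), e2 (by simp [s1, s3]), rfl⟩
    · exact Or.inr ⟨(v + w, w), e3 (by simp [s2, s3]), add_sub_cancel_right v w⟩
  · rcases F_sign h hvw0 with s3 | s3
    · exact Or.inr ⟨(v + w, w), e3 (by simp [s2, s3]), add_sub_cancel_right v w⟩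
    · exact Or.inl ⟨(v, v + w), e2 (by simp [s1, s3]), rfl⟩
  · exact Or.inl ⟨(v, w), e1 (by simp [s1, s2]), rfl⟩

/-- **Plus sign**: `g (n^2+1) = 1` for `≫ x / (log x)^32` of the `n ≤ x`. -/
theorem plus_bound {g : ℕ → ℤ} (h : CM g) {x : ℕ} (hx : 256 ≤ x) :
    (x : ℝ) ≤ 201326592 * (1 + log x) ^ 32 * (signSet g 1 x).card := by
  set B := Nat.sqrt (x / 8) with hBdef
  have hB8 : 8 * B ^ 2 ≤ x := by
    have h1 : B * B ≤ x / 8 := Nat.sqrt_le _
    have h2 : 8 * (x / 8) ≤ x := Nat.mul_div_le _ _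
    nlinarith
  have hB1 : 1 ≤ B := by
    have : 1 ≤ x / 8 := by omega
    rw [hBdef, Nat.le_sqrt]; omega
  have hBlow : x < 8 * (B + 1) ^ 2 := by
    have h1 : x / 8 < (B + 1) * (B + 1) := Nat.lt_succ_sqrt _
    have h2 : x < 8 * (x / 8 + 1) := by omega
    nlinarith
  have hBlow' : (x : ℝ) / 32 ≤ (B : ℝ) ^ 2 := by
    have h1 : (x : ℝ) < 8 * ((B : ℝ) + 1) ^ 2 := by exact_mod_cast hBlow
    have h2 : (1 : ℝ) ≤ B := by exact_mod_cast hB1
    nlinarith
  have h1 : (vecs B).card ≤ 2 * (edges g 1 x).card := by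
    refine (Finset.card_le_card (vecs_subset h hB8)).trans ?_
    refine (Finset.card_union_le _ _).trans ?_
    have a1 := Finset.card_image_le (s := edges g 1 x) (f := Prod.fst)
    have a2 := Finset.card_image_le (s := edges g 1 x) (f := fun p => p.1 - p.2)
    omega
  have h2 := card_edges_le h 1 x
  have h3 : ((vecs B).card : ℝ) ≤ 16 * ∑ n ∈ signSet g 1 x, (tau (n ^ 2 + 1) : ℝ) := by
    have : (vecs B).card ≤ 16 * ∑ n ∈ signSet g 1 x, tau (n ^ 2 + 1) := by
      unfold tau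
      omega
    exact_mod_cast this
  have h4 := card_vecs B
  have hx' : (256 : ℝ) ≤ x := by exact_mod_cast hx
  set S := ∑ n ∈ signSet g 1 x, (tau (n ^ 2 + 1) : ℝ) with hS
  have h5 : (x : ℝ) / 4096 ≤ S := by linarith
  have h6 := card_lower (x := x) (by omega) (A := signSet g 1 x) (Finset.filter_subset _ _)
  rw [← hS] at h6
  have h7 : ((x : ℝ) / 4096) ^ 2 ≤ (signSet g 1 x).card * (12 * x * (1 + log x) ^ 32) :=
    (pow_le_pow_left₀ (by positivity) h5 2).trans h6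
  have hx0 : (0 : ℝ) < x := by linarith
  have h8 : (x : ℝ) * x ≤ x * (201326592 * (1 + log x) ^ 32 * (signSet g 1 x).card) := by
    have : ((x : ℝ) / 4096) ^ 2 = x * x / 16777216 := by ring
    rw [this, div_le_iff₀ (by norm_num)] at h7
    calc (x : ℝ) * x ≤ _ := h7
      _ = _ := by ring
  exact le_of_mul_le_mul_left h8 hx0

end Pool.Agent.MP484c84Par
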