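import Mathlib

/-!
# Parity of the number of prime factors of `n ^ 2 + 1`: basic definitions

`F g z = g (N z)` for a completely multiplicative sign function `g`, the finite set of *bad edges*,
and the angular cones.
-/

namespace Pool.Agent.MP484c84Par

open Real

/-- completely multiplicative functions with values `1` and `-1` on the positive integers -/
structure CM (g : ℕ → ℤ) : Prop where
  sign : ∀ n, 1 ≤ n → g n = 1 ∨ g n = -1
  mul : ∀ a b, 1 ≤ a → 1 ≤ b → g (a * b) = g a * g b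

lemma CM.one {g : ℕ → ℤ} (h : CM g) : g 1 = 1 := by
  have h1 := h.mul 1 1 le_rfl le_rfl
  rcases h.sign 1 le_rfl with h2 | h2
  · exact h2
  · simp [h2] at h1

lemma CM.sq {g : ℕ → ℤ} (h : CM g) {n : ℕ} (hn : 1 ≤ n) : g n * g n = 1 := by
  rcases h.sign n hn with h2 | h2 <;> simp [h2]

/-- `F g z = g (N z)` on the Gaussian integers -/
def F (g : ℕ → ℤ) (z : GaussianInt) : ℤ := g z.norm.natAbs

lemma norm_nonneg' (z : GaussianInt) : 0 ≤ z.norm := GaussianInt.norm_nonneg z

lemma norm_def' (z : GaussianInt) : z.norm = z.re * z.re + z.im * z.im := by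
  simp [Zsqrtd.norm_def]

lemma norm_pos' {z : GaussianInt} (hz : z ≠ 0) : 0 < z.norm := GaussianInt.norm_pos.2 hz

lemma one_le_natAbs_norm {z : GaussianInt} (hz : z ≠ 0) : 1 ≤ z.norm.natAbs := by
  have := norm_pos' hz
  omega

section
variable {g : ℕ → ℤ} (h : CM g)
include h

lemma F_sign {z : GaussianInt} (hz : z ≠ 0) : F g z = 1 ∨ F g z = -1 :=
  h.sign _ (one_le_natAbs_norm hz)

lemma F_mul_self {z : GaussianInt} (hz : z ≠ 0) : F g z * F g z = 1 :=
  h.sq (one_le_natAbs_norm hz)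

lemma F_mul {z w : GaussianInt} (hz : z ≠ 0) (hw : w ≠ 0) : F g (z * w) = F g z * F g w := by
  unfold F
  rw [Zsqrtd.norm_mul, Int.natAbs_mul, h.mul _ _ (one_le_natAbs_norm hz) (one_le_natAbs_norm hw)]

omit h in
lemma F_star (z : GaussianInt) : F g (star z) = F g z := by
  unfold F
  congr 2
  simp [Zsqrtd.norm_def]

lemma F_intCast {n : ℤ} (hn : n ≠ 0) : F g (n : GaussianInt) = 1 := by
  unfold F
  have : ((n : GaussianInt)).norm.natAbs = n.natAbs * n.natAbs := by
    simp [Zsqrtd.norm_def, Int.natAbs_mul]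
  rw [this, h.mul _ _ (by omega) (by omega)]
  exact h.sq (by omega)

lemma F_ne_iff {z w : GaussianInt} (hz : z ≠ 0) (hw : w ≠ 0) :
    F g z ≠ F g w ↔ F g z * F g w = -1 := by
  rcases F_sign h hz with h1 | h1 <;> rcases F_sign h hw with h2 | h2 <;> simp [h1, h2]

lemma F_mul_star {z w : GaussianInt} (hz : z ≠ 0) (hw : w ≠ 0) :
    F g (star z * w) = F g z * F g w := by
  rw [F_mul h (by simpa using hz) hw, F_star]

end

lemma F_mk_one (g : ℕ → ℤ) (m : ℤ) : F g ⟨m, 1⟩ = g (m.natAbs ^ 2 + 1) := by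
  unfold F
  congr 1
  rw [norm_def']
  have : (m * m + 1 * 1 : ℤ) = ((m.natAbs ^ 2 + 1 : ℕ) : ℤ) := by
    push_cast
    rw [sq_abs]; ring
  simp only [this, Int.natAbs_natCast]

/-- all Gaussian integers of norm at most `x` -/
noncomputable def ballG (x : ℕ) : Finset GaussianInt :=
  ((Finset.Icc (-(x : ℤ)) x ×ˢ Finset.Icc (-(x : ℤ)) x).image
    (fun p => (⟨p.1, p.2⟩ : GaussianInt))).filter (fun z => z.norm ≤ x)

lemma mem_ballG {x : ℕ} {z : GaussianInt} : z ∈ ballG x ↔ z.norm ≤ x := by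
  unfold ballG
  simp only [Finset.mem_filter, Finset.mem_image, Finset.mem_product, Finset.mem_Icc, Prod.exists,
    and_iff_right_iff_imp]
  intro hz
  rw [norm_def'] at hz
  refine ⟨z.re, z.im, ⟨⟨?_, ?_⟩, ?_, ?_⟩, rfl⟩ <;> nlinarith [sq_nonneg (z.re), sq_nonneg (z.im), sq_nonneg (z.re - 1), sq_nonneg (z.re + 1), sq_nonneg (z.im - 1), sq_nonneg (z.im + 1), sq_abs z.re]

/-- the imaginary part of `conj v * w` -/
def crossG (v w : GaussianInt) : ℤ := v.re * w.im - v.im * w.re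

lemma crossG_eq (v w : GaussianInt) : crossG v w = (star v * w).im := by
  simp [crossG]; ring

/-- the set of bad edges -/
noncomputable def badEdges (g : ℕ → ℤ) (x : ℕ) : Finset (GaussianInt × GaussianInt) :=
  (ballG x ×ˢ ballG x).filter (fun p => crossG p.1 p.2 = 1 ∧ F g p.1 ≠ F g p.2)

lemma mem_badEdges {g : ℕ → ℤ} {x : ℕ} {p : GaussianInt × GaussianInt} :
    p ∈ badEdges g x ↔ p.1.norm ≤ x ∧ p.2.norm ≤ x ∧ crossG p.1 p.2 = 1 ∧ F g p.1 ≠ F g p.2 := by
  simp [badEdges, mem_ballG, and_assoc]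

end Pool.Agent.MP484c84Par
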