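import Pool.Agent.Lib.MP484c84Par.Path

/-!
# Angular cones
-/

namespace Pool.Agent.MP484c84Par

open Real MeasureTheory

/-- the circle of angles -/
abbrev Circ := AddCircle (2 * π)

instance : Fact (0 < 2 * π) := ⟨Real.two_pi_pos⟩

/-- argument of a Gaussian integer, as an angle -/
noncomputable def gArg (z : GaussianInt) : Circ := ((Complex.arg (z : ℂ) : ℝ) : Circ)

lemma toC_ne {z : GaussianInt} (hz : z ≠ 0) : (z : ℂ) ≠ 0 := by
  intro h
  exact hz (by simpa using h)

lemma gArg_mul {z w : GaussianInt} (hz : z ≠ 0) (hw : w ≠ 0) :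
    gArg (z * w) = gArg z + gArg w := by
  unfold gArg
  have h := Complex.arg_mul_coe_angle (toC_ne hz) (toC_ne hw)
  rw [← GaussianInt.toComplex_mul] at h
  exact h

/-- the cone of angular radius `τ` about the direction `θ` -/
def cone (θ : Circ) (τ : ℝ) (z : GaussianInt) : Prop := z ≠ 0 ∧ ‖gArg z - θ‖ ≤ τ

lemma cone_mono {θ : Circ} {τ τ' : ℝ} (h : τ ≤ τ') {z : GaussianInt} (hz : cone θ τ z) :
    cone θ τ' z := ⟨hz.1, hz.2.trans h⟩

lemma cone_shift {θ a : Circ} {τ τ' : ℝ} (h : ‖a‖ + τ ≤ τ') {z : GaussianInt}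
    (hz : cone (θ + a) τ z) : cone θ τ' z := by
  refine ⟨hz.1, ?_⟩
  have h1 : gArg z - θ = (gArg z - (θ + a)) + a := by abel
  rw [h1]
  refine (norm_add_le _ _).trans ?_
  linarith [hz.2]

lemma cone_mul {θ : Circ} {τ : ℝ} {z k : GaussianInt} (hk : k ≠ 0) (hz : cone θ τ z) :
    cone (θ + gArg k) τ (k * z) := by
  refine ⟨mul_ne_zero hk hz.1, ?_⟩
  rw [gArg_mul hk hz.1]
  have h1 : gArg k + gArg z - (θ + gArg k) = gArg z - θ := by abel
  rw [h1]
  exact hz.2

lemma abs_le_iff_sin {ψ τ : ℝ} (hτ : 0 < τ) (hτ' : τ < π / 2) (h1 : |ψ| ≤ π) :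
    |ψ| ≤ τ ↔ |sin ψ| * cos τ ≤ sin τ * cos ψ := by
  have h2 : |sin ψ| = sin |ψ| := by
    rcases abs_cases ψ with ⟨h, h'⟩ | ⟨h, h'⟩
    · rw [h, abs_of_nonneg (sin_nonneg_of_nonneg_of_le_pi h' (by linarith))]
    · rw [h, sin_neg, abs_of_nonpos]
      have := sin_nonneg_of_nonneg_of_le_pi (x := -ψ) (by linarith) (by linarith)
      rw [sin_neg] at this
      linarith
  rw [h2, ← cos_abs ψ]
  have h3 : sin (|ψ| - τ) = sin |ψ| * cos τ - cos |ψ| * sin τ := sin_sub _ _
  constructor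
  · intro h4
    have h5 : sin (|ψ| - τ) ≤ 0 :=
      sin_nonpos_of_nonpos_of_neg_pi_le (by linarith) (by linarith [abs_nonneg ψ, pi_pos])
    linarith
  · intro h4
    by_contra h5
    push Not at h5
    have h6 : 0 < sin (|ψ| - τ) := sin_pos_of_pos_of_lt_pi (by linarith) (by linarith)
    linarith

lemma norm_coe_arg (w : ℂ) : ‖((Complex.arg w : ℝ) : Circ)‖ = |Complex.arg w| := by
  rw [AddCircle.norm_coe_eq_abs_iff _ (by positivity)]
  rw [abs_of_pos two_pi_pos]
  have := Complex.abs_arg_le_pi w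
  linarith

lemma arg_rotate {z : ℂ} (hz : z ≠ 0) (θ : ℝ) :
    ((Complex.arg (Complex.exp (-(θ * Complex.I)) * z) : ℝ) : Circ) =
      ((Complex.arg z : ℝ) : Circ) - (θ : Circ) := by
  have h := Complex.arg_mul_coe_angle (Complex.exp_ne_zero (-(θ * Complex.I))) hz
  have h2 : ((Complex.arg (Complex.exp (-(θ * Complex.I))) : ℝ) : Real.Angle) =
      ((-θ : ℝ) : Real.Angle) := by
    have : -((θ : ℂ) * Complex.I) = ((-θ : ℝ) : ℂ) * Complex.I := by push_cast; ring
    rw [this]
    rw [Complex.arg_exp_mul_I]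
    exact Real.Angle.coe_toIocMod _ _
  rw [h2] at h
  have h3 : ((Complex.arg (Complex.exp (-(θ * Complex.I)) * z) : ℝ) : Circ) =
      ((-θ : ℝ) : Circ) + ((Complex.arg z : ℝ) : Circ) := h
  rw [h3, AddCircle.coe_neg]
  abel

lemma cone_iff_complex {z : GaussianInt} (hz : z ≠ 0) (θ : ℝ) {τ : ℝ} (hτ : 0 < τ)
    (hτ' : τ < π / 2) :
    cone (θ : Circ) τ z ↔
      |(Complex.exp (-(θ * Complex.I)) * z).im| * cos τ ≤
        sin τ * (Complex.exp (-(θ * Complex.I)) * z).re := by
  have hz' := toC_ne hz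
  set w := Complex.exp (-(θ * Complex.I)) * (z : ℂ) with hw
  have hw0 : w ≠ 0 := mul_ne_zero (Complex.exp_ne_zero _) hz'
  have h1 : ‖gArg z - (θ : Circ)‖ = |Complex.arg w| := by
    unfold gArg
    rw [← arg_rotate hz' θ, norm_coe_arg]
  have h2 : cone (θ : Circ) τ z ↔ |Complex.arg w| ≤ τ := by
    unfold cone
    rw [h1]; simp [hz]
  rw [h2, abs_le_iff_sin hτ hτ' (Complex.abs_arg_le_pi w)]
  have h3 : 0 < ‖w‖ := norm_pos_iff.2 hw0
  have h4 : w.im = ‖w‖ * sin (Complex.arg w) := by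
    rw [Complex.sin_arg]; field_simp
  have h5 : w.re = ‖w‖ * cos (Complex.arg w) := by
    rw [Complex.cos_arg hw0]; field_simp
  rw [h4, h5, abs_mul, abs_of_pos h3]
  constructor
  · intro h
    have := mul_le_mul_of_nonneg_left h h3.le
    linarith
  · intro h
    have h6 : ‖w‖ * (|sin (Complex.arg w)| * cos τ) ≤ ‖w‖ * (sin τ * cos (Complex.arg w)) := by
      linarith
    exact le_of_mul_le_mul_left h6 h3

theorem cone_convex (θ : Circ) {τ : ℝ} (hτ : 0 < τ) (hτ' : τ < π / 2) :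
    Convex' (cone θ τ) := by
  induction θ using QuotientAddGroup.induction_on with
  | _ θ =>
  intro z z' u a b D ha hb hD hu h1 h2 hz hz'
  have hz0 := hz.1
  have hz0' := hz'.1
  have e1 := (cone_iff_complex hz0 θ hτ hτ').1 hz
  have e2 := (cone_iff_complex hz0' θ hτ hτ').1 hz'
  refine (cone_iff_complex hu θ hτ hτ').2 ?_
  have hlin : (D : ℂ) * (u : ℂ) = a * (z : ℂ) + b * (z' : ℂ) := by
    apply Complex.ext
    · simp only [GaussianInt.toComplex_def, Complex.mul_re, Complex.add_re, Complex.mul_im,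
        Complex.intCast_re, Complex.intCast_im, Complex.I_re, Complex.I_im, Complex.add_im]
      have := congrArg (fun t : ℤ => (t : ℝ)) h1
      push_cast at this
      linarith
    · simp only [GaussianInt.toComplex_def, Complex.mul_re, Complex.add_re, Complex.mul_im,
        Complex.intCast_re, Complex.intCast_im, Complex.I_re, Complex.I_im, Complex.add_im]
      have := congrArg (fun t : ℤ => (t : ℝ)) h2
      push_cast at this
      linarith
  set E := Complex.exp (-(θ * Complex.I)) with hE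
  have hlin2 : (D : ℂ) * (E * (u : ℂ)) = a * (E * (z : ℂ)) + b * (E * (z' : ℂ)) := by
    linear_combination E * hlin
  have him := congrArg Complex.im hlin2
  have hre := congrArg Complex.re hlin2
  simp only [Complex.add_im, Complex.add_re, Complex.mul_im (D : ℂ), Complex.mul_im (a : ℂ),
    Complex.mul_im (b : ℂ), Complex.mul_re (D : ℂ), Complex.mul_re (a : ℂ),
    Complex.mul_re (b : ℂ), Complex.intCast_re, Complex.intCast_im, zero_mul, add_zero,
    sub_zero] at him hre
  set U := E * (u : ℂ)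
  set Z := E * (z : ℂ)
  set Z' := E * (z' : ℂ)
  have hDr : (0 : ℝ) < D := by exact_mod_cast hD
  have har : (0 : ℝ) ≤ a := by exact_mod_cast ha
  have hbr : (0 : ℝ) ≤ b := by exact_mod_cast hb
  have hc : 0 < cos τ := cos_pos_of_mem_Ioo ⟨by linarith, hτ'⟩
  have h3 : (D : ℝ) * (|U.im| * cos τ) ≤ D * (sin τ * U.re) := by
    have e3 : (D : ℝ) * |U.im| ≤ a * |Z.im| + b * |Z'.im| := by
      rw [← abs_of_pos hDr, ← abs_mul, him]
      refine (abs_add_le _ _).trans ?_
      rw [abs_mul, abs_mul, abs_of_nonneg har, abs_of_nonneg hbr]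
    have e4 : (D : ℝ) * (sin τ * U.re) = a * (sin τ * Z.re) + b * (sin τ * Z'.re) := by
      linear_combination sin τ * hre
    rw [e4]
    have e5 := mul_le_mul_of_nonneg_left e1 har
    have e6 := mul_le_mul_of_nonneg_left e2 hbr
    have e7 := mul_le_mul_of_nonneg_right e3 hc.le
    nlinarith
  exact le_of_mul_le_mul_left h3 hDr

end Pool.Agent.MP484c84Par
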