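import Mathlib

/-!
# Finite differences of `arctan (1/x)`
-/

namespace Pool.Agent.MP484c84Par

open Real

/-- `fB 0 x = π/2 - arctan x` and `fB r = (-1)^r (d/dx)^r (fB 0)` -/
noncomputable def fB : ℕ → ℝ → ℝ
  | 0 => fun x => π / 2 - arctan x
  | (r + 1) => fun x => (r.factorial : ℝ) * (((x : ℂ) - Complex.I)⁻¹ ^ (r + 1)).im

lemma x_sub_I_ne (x : ℝ) : (x : ℂ) - Complex.I ≠ 0 := by
  intro h
  have := congrArg Complex.im h
  simp at this

lemma hasDerivAt_fB (r : ℕ) (x : ℝ) : HasDerivAt (fB r) (-(fB (r + 1) x)) x := by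
  have hinv : HasDerivAt (fun y : ℝ => ((y : ℂ) - Complex.I)⁻¹)
      (-(1 : ℂ) / ((x : ℂ) - Complex.I) ^ 2) x := by
    have h1 : HasDerivAt (fun y : ℝ => (y : ℂ) - Complex.I) 1 x :=
      (Complex.ofRealCLM.hasDerivAt (x := x)).sub_const _
    exact h1.inv (x_sub_I_ne x)
  cases r with
  | zero =>
    have h1 : HasDerivAt (fun y : ℝ => π / 2 - arctan y) (-(1 / (1 + x ^ 2))) x := by
      simpa using (Real.hasDerivAt_arctan x).const_sub (π / 2)
    have h2 : fB 1 x = 1 / (1 + x ^ 2) := by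
      simp only [fB, Nat.factorial_zero, Nat.cast_one, one_mul, zero_add, pow_one,
        Complex.inv_im, Complex.sub_im, Complex.ofReal_im, Complex.I_im, Complex.normSq_apply,
        Complex.sub_re, Complex.ofReal_re, Complex.I_re]
      ring_nf
    rw [h2]
    exact h1
  | succ r =>
    have h1 := (hinv.pow (r + 1)).const_mul (r.factorial : ℂ)
    have h2 : HasDerivAt (fun y : ℝ => Complex.imCLM ((r.factorial : ℂ) * (((y : ℂ) - Complex.I)⁻¹) ^ (r + 1)))
        (Complex.imCLM ((r.factorial : ℂ) * (((r + 1 : ℕ) : ℂ) * ((x : ℂ) - Complex.I)⁻¹ ^ (r + 1 - 1) *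
          (-(1 : ℂ) / ((x : ℂ) - Complex.I) ^ 2)))) x :=
      Complex.imCLM.hasFDerivAt.comp_hasDerivAt x h1
    have h3 : (fun y : ℝ => Complex.imCLM ((r.factorial : ℂ) * (((y : ℂ) - Complex.I)⁻¹) ^ (r + 1)))
        = fB (r + 1) := by
      funext y
      simp only [fB, Complex.imCLM_apply]
      rw [← Complex.ofReal_natCast, Complex.im_ofReal_mul]
    rw [h3] at h2
    convert h2 using 1
    simp only [fB, Complex.imCLM_apply, Nat.add_sub_cancel]
    have h4 : (r.factorial : ℂ) * (((r + 1 : ℕ) : ℂ) * ((x : ℂ) - Complex.I)⁻¹ ^ r *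
        (-(1 : ℂ) / ((x : ℂ) - Complex.I) ^ 2)) =
        ((-((r + 1).factorial : ℝ) : ℝ) : ℂ) * ((x : ℂ) - Complex.I)⁻¹ ^ (r + 1 + 1) := by
      have h5 : (-(1 : ℂ) / ((x : ℂ) - Complex.I) ^ 2) = -(((x : ℂ) - Complex.I)⁻¹ ^ 2) := by
        rw [inv_pow, neg_div, one_div]
      rw [Nat.factorial_succ, h5]
      generalize ((x : ℂ) - Complex.I)⁻¹ = w
      push_cast
      ring
    rw [h4, Complex.im_ofReal_mul]
    ring

/-- the difference operator -/
def Tf (f : ℝ → ℝ) : ℝ → ℝ := fun x => f x - f (x + 1)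

lemma Tf_iter_succ (l : ℕ) (f : ℝ → ℝ) (x : ℝ) :
    (Tf^[l + 1] f) x = (Tf^[l] f) x - (Tf^[l] f) (x + 1) := by
  rw [Function.iterate_succ_apply']; rfl

lemma Tf_iter_shift (l : ℕ) (f : ℝ → ℝ) (q x : ℝ) :
    (Tf^[l] (fun y => f y - f (y + q))) x = (Tf^[l] f) x - (Tf^[l] f) (x + q) := by
  induction l generalizing x with
  | zero => simp
  | succ l ih =>
    rw [Tf_iter_succ, Tf_iter_succ, Tf_iter_succ, ih, ih]
    rw [show x + q + 1 = x + 1 + q by ring]
    ring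

lemma hasDerivAt_Tf (l r : ℕ) (x : ℝ) :
    HasDerivAt (Tf^[l] (fB r)) (-((Tf^[l] (fB (r + 1))) x)) x := by
  induction l generalizing x with
  | zero => exact hasDerivAt_fB r x
  | succ l ih =>
    have h1 : (Tf^[l + 1] (fB r)) = fun y => (Tf^[l] (fB r)) y - (Tf^[l] (fB r)) (y + 1) := by
      funext y; exact Tf_iter_succ l _ y
    rw [h1, Tf_iter_succ]
    have h2 := (ih x).fun_sub ((ih (x + 1)).comp_add_const x 1)
    have h3 : -((Tf^[l] (fB (r + 1))) x - (Tf^[l] (fB (r + 1))) (x + 1)) =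
        -(Tf^[l] (fB (r + 1))) x - -(Tf^[l] (fB (r + 1))) (x + 1) := by ring
    rw [h3]
    exact h2

lemma exists_mvt_step (l r : ℕ) (x q : ℝ) (hq : 0 < q) :
    ∃ c, x ≤ c ∧ c ≤ x + q ∧
      (Tf^[l] (fB r)) x - (Tf^[l] (fB r)) (x + q) = q * (Tf^[l] (fB (r + 1))) c := by
  obtain ⟨c, hc, hc2⟩ := exists_hasDerivAt_eq_slope (Tf^[l] (fB r))
    (fun y => -((Tf^[l] (fB (r + 1))) y)) (show x < x + q by linarith)
    (fun y _ => (hasDerivAt_Tf l r y).continuousAt.continuousWithinAt)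
    (fun y _ => hasDerivAt_Tf l r y)
  refine ⟨c, hc.1.le, hc.2.le, ?_⟩
  rw [eq_div_iff (by linarith)] at hc2
  linarith

lemma exists_mvt (l : ℕ) : ∀ (r : ℕ) (x : ℝ), ∃ ξ, x ≤ ξ ∧ ξ ≤ x + l ∧
    (Tf^[l] (fB r)) x = fB (r + l) ξ := by
  induction l with
  | zero => intro r x; exact ⟨x, le_rfl, by simp, rfl⟩
  | succ l ih =>
    intro r x
    obtain ⟨c, hc1, hc2, hc3⟩ := exists_mvt_step l r x 1 one_pos
    obtain ⟨ξ, h1, h2, h3⟩ := ih (r + 1) c
    refine ⟨ξ, by linarith, by push_cast; linarith, ?_⟩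
    rw [Tf_iter_succ, hc3, one_mul, h3]
    congr 1
    ring

lemma fB_eq_sin {r : ℕ} {x : ℝ} (hx : 0 < x) : ∃ φ : ℝ, 1 / √(x ^ 2 + 1) ≤ φ ∧ φ ≤ 1 / x ∧
    fB (r + 1) x = r.factorial * ((1 / √(x ^ 2 + 1)) ^ (r + 1) * sin ((r + 1) * φ)) := by
  set z : ℂ := ((x : ℂ) - Complex.I)⁻¹ with hz
  have hz0 : z ≠ 0 := inv_ne_zero (x_sub_I_ne x)
  have hnormSq : Complex.normSq ((x : ℂ) - Complex.I) = x ^ 2 + 1 := by
    simp [Complex.normSq_apply]; ring
  have hnorm : ‖z‖ = 1 / √(x ^ 2 + 1) := by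
    rw [hz, norm_inv, Complex.norm_def, hnormSq, one_div]
  have hre : z.re = x / (x ^ 2 + 1) := by
    rw [hz, Complex.inv_re, hnormSq]; simp
  have him : z.im = 1 / (x ^ 2 + 1) := by
    rw [hz, Complex.inv_im, hnormSq]; simp
  have hpos : (0 : ℝ) < x ^ 2 + 1 := by positivity
  have hsq : √(x ^ 2 + 1) * √(x ^ 2 + 1) = x ^ 2 + 1 := mul_self_sqrt hpos.le
  have hsqpos : 0 < √(x ^ 2 + 1) := sqrt_pos.2 hpos
  have hargim : 0 ≤ Complex.arg z := by
    rw [Complex.arg_nonneg_iff, him]; positivity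
  have hreim : |Complex.arg z| < π / 2 := by
    rw [Complex.abs_arg_lt_pi_div_two_iff]
    left; rw [hre]; positivity
  refine ⟨Complex.arg z, ?_, ?_, ?_⟩
  · have h1 : sin (Complex.arg z) = 1 / √(x ^ 2 + 1) := by
      rw [Complex.sin_arg, him, hnorm]
      field_simp
      nlinarith
    rw [← h1]
    exact sin_le hargim
  · have h1 : tan (Complex.arg z) = 1 / x := by
      rw [Complex.tan_arg, him, hre]
      field_simp
    rw [← h1]
    rcases eq_or_lt_of_le hargim with h | h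
    · rw [← h]; simp
    · exact (lt_tan h (abs_lt.1 hreim).2).le
  · have h1 : z ^ (r + 1) = ((‖z‖ ^ (r + 1) : ℝ) : ℂ) *
        Complex.exp ((((r + 1) * Complex.arg z : ℝ) : ℂ) * Complex.I) := by
      conv_lhs => rw [← Complex.norm_mul_exp_arg_mul_I z]
      rw [mul_pow, ← Complex.exp_nat_mul]
      push_cast
      congr 2
      ring
    show (r.factorial : ℝ) * (z ^ (r + 1)).im = _
    rw [h1, Complex.im_ofReal_mul, Complex.exp_ofReal_mul_I_im, hnorm]

lemma fB_upper {r : ℕ} {x : ℝ} (hx : 0 < x) :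
    fB (r + 1) x ≤ (r + 1).factorial / x ^ (r + 2) := by
  obtain ⟨φ, h1, h2, h3⟩ := fB_eq_sin (r := r) hx
  have hpos : (0 : ℝ) < x ^ 2 + 1 := by positivity
  have hsqpos : 0 < √(x ^ 2 + 1) := sqrt_pos.2 hpos
  have hφ : 0 ≤ φ := le_trans (by positivity) h1
  have h4 : sin ((r + 1) * φ) ≤ (r + 1) * (1 / x) := by
    refine (sin_le (by positivity)).trans ?_
    apply mul_le_mul_of_nonneg_left h2 (by positivity)
  have h5 : 1 / √(x ^ 2 + 1) ≤ 1 / x := by
    apply one_div_le_one_div_of_le hx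
    apply le_sqrt_of_sq_le
    linarith
  have h6 : (1 / √(x ^ 2 + 1)) ^ (r + 1) ≤ (1 / x) ^ (r + 1) :=
    pow_le_pow_left₀ (by positivity) h5 _
  rw [h3]
  calc (r.factorial : ℝ) * ((1 / √(x ^ 2 + 1)) ^ (r + 1) * sin ((r + 1) * φ))
      ≤ r.factorial * ((1 / √(x ^ 2 + 1)) ^ (r + 1) * ((r + 1) * (1 / x))) := by
        gcongr
    _ ≤ r.factorial * ((1 / x) ^ (r + 1) * ((r + 1) * (1 / x))) := by
        gcongr
    _ = (r + 1).factorial / x ^ (r + 2) := by
        rw [Nat.factorial_succ, one_div, inv_pow]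
        push_cast
        field_simp
        ring

lemma fB_lower {r : ℕ} {x : ℝ} (hx : (r : ℝ) + 1 ≤ x) :
    3 / 4 * ((r + 1).factorial / (x + 1) ^ (r + 2)) ≤ fB (r + 1) x := by
  have hx0 : 0 < x := by
    have : (0 : ℝ) ≤ r := Nat.cast_nonneg r
    linarith
  obtain ⟨φ, h1, h2, h3⟩ := fB_eq_sin (r := r) hx0
  have hpos : (0 : ℝ) < x ^ 2 + 1 := by positivity
  have hsqpos : 0 < √(x ^ 2 + 1) := sqrt_pos.2 hpos
  have hr1 : (0 : ℝ) < (r : ℝ) + 1 := by positivity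
  have hφ : 0 < φ := lt_of_lt_of_le (by positivity) h1
  set y := ((r : ℝ) + 1) * φ with hy
  have hy0 : 0 < y := by positivity
  have hy1 : y ≤ 1 := by
    calc y ≤ (r + 1) * (1 / x) := mul_le_mul_of_nonneg_left h2 hr1.le
      _ ≤ x * (1 / x) := mul_le_mul_of_nonneg_right hx (by positivity)
      _ = 1 := by field_simp
  have h4 : 3 / 4 * y ≤ sin y := by
    have := sin_gt_sub_cube hy0
    have h5 : y ^ 3 ≤ y := by
      have : y ^ 3 = y * (y * y) := by ring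
      rw [this]
      calc y * (y * y) ≤ y * (1 * 1) := by gcongr
        _ = y := by ring
    linarith
  have h5 : 1 / (x + 1) ≤ 1 / √(x ^ 2 + 1) := by
    apply one_div_le_one_div_of_le hsqpos
    rw [sqrt_le_left (by linarith)]
    nlinarith
  have h6 : (1 / (x + 1)) ^ (r + 1) ≤ (1 / √(x ^ 2 + 1)) ^ (r + 1) :=
    pow_le_pow_left₀ (by positivity) h5 _
  rw [h3]
  calc 3 / 4 * (((r + 1).factorial : ℝ) / (x + 1) ^ (r + 2))
      = r.factorial * ((1 / (x + 1)) ^ (r + 1) * (3 / 4 * ((r + 1) * (1 / (x + 1))))) := by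
        have hx1 : (x + 1) ≠ 0 := by positivity
        rw [Nat.factorial_succ, one_div, inv_pow]
        push_cast
        field_simp
        ring
    _ ≤ r.factorial * ((1 / √(x ^ 2 + 1)) ^ (r + 1) * (3 / 4 * ((r + 1) * φ))) := by
        gcongr
        exact h5.trans h1
    _ ≤ _ := by
        gcongr

end Pool.Agent.MP484c84Par
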