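import Pool.Agent.Lib.MP484c84Par.Shift
import Pool.Agent.Lib.MP484c84Par.Diff

/-!
# The main inequality
-/

namespace Pool.Agent.MP484c84Par

open Real MeasureTheory

/-- the multiplicative difference operator on sign sequences -/
def Ts (u : ℕ → ℤ) : ℕ → ℤ := fun m => u m * u (m + 1)

lemma Ts_iter_succ (l : ℕ) (u : ℕ → ℤ) (m : ℕ) :
    (Ts^[l + 1] u) m = (Ts^[l] u) m * (Ts^[l] u) (m + 1) := by
  rw [Function.iterate_succ_apply']; rfl

lemma Ts_iter_sq (l : ℕ) {u : ℕ → ℤ} (hu : ∀ m, u m * u m = 1) (m : ℕ) :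
    (Ts^[l] u) m * (Ts^[l] u) m = 1 := by
  induction l generalizing m with
  | zero => exact hu m
  | succ l ih =>
    rw [Ts_iter_succ]
    have h1 := ih m
    have h2 := ih (m + 1)
    calc (Ts^[l] u) m * (Ts^[l] u) (m + 1) * ((Ts^[l] u) m * (Ts^[l] u) (m + 1))
        = ((Ts^[l] u) m * (Ts^[l] u) m) * ((Ts^[l] u) (m + 1) * (Ts^[l] u) (m + 1)) := by ring
      _ = 1 := by rw [h1, h2]; norm_num

lemma Ts_pow (t : ℕ) : ∀ {u : ℕ → ℤ}, (∀ m, u m * u m = 1) → ∀ m,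
    (Ts^[2 ^ t] u) m = u m * u (m + 2 ^ t) := by
  induction t with
  | zero => intro u _ m; simp [Ts]
  | succ t ih =>
    intro u hu m
    have h1 : 2 ^ (t + 1) = 2 ^ t + 2 ^ t := by ring
    rw [h1, Function.iterate_add_apply, ih (u := Ts^[2 ^ t] u) (Ts_iter_sq _ hu), ih hu, ih hu]
    have h2 := hu (m + 2 ^ t)
    rw [show m + (2 ^ t + 2 ^ t) = m + 2 ^ t + 2 ^ t by ring]
    calc u m * u (m + 2 ^ t) * (u (m + 2 ^ t) * u (m + 2 ^ t + 2 ^ t))
        = u m * (u (m + 2 ^ t) * u (m + 2 ^ t)) * u (m + 2 ^ t + 2 ^ t) := by ring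
      _ = _ := by rw [h2]; ring

/-- the signs `F (m + i)` -/
def sg (g : ℕ → ℤ) (m : ℕ) : ℤ := F g ⟨m, 1⟩

lemma mk_one_ne (m : ℤ) : (⟨m, 1⟩ : GaussianInt) ≠ 0 := by
  intro h
  have := congrArg Zsqrtd.im h
  simp at this

lemma sg_sq {g : ℕ → ℤ} (h : CM g) (m : ℕ) : sg g m * sg g m = 1 :=
  F_mul_self h (mk_one_ne _)

lemma gArg_mk_one {m : ℕ} (hm : 1 ≤ m) :
    gArg ⟨m, 1⟩ = ((fB 0 m : ℝ) : Circ) := by
  have hm' : (0 : ℝ) < m := by exact_mod_cast hm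
  rw [gArg_of_pos (k := (m : ℤ)) (by exact_mod_cast hm)]
  congr 1
  show _ = π / 2 - arctan (m : ℝ)
  rw [← arctan_inv_of_pos hm']
  congr 1
  push_cast
  rw [one_div]

section
variable {g : ℕ → ℤ} (h : CM g) {x n : ℕ} (hn : 0 < n) {τ : ℝ} (hτ : 0 < τ)
  (hτ' : 2 * τ < π / 2)
include h hn hτ hτ'

lemma Dm_base {m : ℕ} (hm : 1 ≤ m) (hx : (m ^ 2 + 1) * (2 * n ^ 2) ≤ x) :
    Dm (GF g n τ) (sg g m) ((fB 0 m : ℝ) : Circ) ≤ muErr g x n τ := by
  rw [← gArg_mk_one hm]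
  refine Dm_mul_le h hn hτ (by linarith) (mk_one_ne _) ?_
  have h1 : (⟨(m : ℤ), 1⟩ : GaussianInt).norm = (m : ℤ) ^ 2 + 1 := by rw [norm_def']; ring
  rw [h1]
  exact_mod_cast hx

lemma Dm_iter (l : ℕ) : ∀ {m : ℕ}, 1 ≤ m → ((m + l) ^ 2 + 1) * (2 * n ^ 2) ≤ x →
    Dm (GF g n τ) ((Ts^[l] (sg g)) m) (((Tf^[l] (fB 0)) m : ℝ) : Circ) ≤
      2 ^ l * muErr g x n τ := by
  induction l with
  | zero =>
    intro m hm hx
    simpa using Dm_base h hn hτ hτ' hm (by simpa using hx)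
  | succ l ih =>
    intro m hm hx
    have h1 := ih hm (le_trans (by gcongr; omega) hx)
    have h2 := ih (m := m + 1) (by omega) (le_trans (by gcongr ?_ * _; gcongr ?_ ^ 2 + 1; omega) hx)
    rw [Ts_iter_succ, Tf_iter_succ, AddCircle.coe_sub]
    have h3 := Dm_sub (GF g n τ) (σ := (Ts^[l] (sg g)) m) (σ' := (Ts^[l] (sg g)) (m + 1))
      (Ts_iter_sq l (sg_sq h) (m + 1)) (((Tf^[l] (fB 0)) m : ℝ) : Circ)
      (((Tf^[l] (fB 0)) ((m + 1 : ℕ) : ℝ) : ℝ) : Circ)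
    have h4 : (((m + 1 : ℕ) : ℝ)) = (m : ℝ) + 1 := by push_cast; ring
    rw [h4] at h3 h2
    refine h3.trans ?_
    rw [pow_succ]
    linarith

/-- `F (m+i) = F (m+q+i)` -/
lemma sg_period {t m : ℕ} (hm : 1 ≤ m) (hqm : 2 ^ t ≤ m)
    (hx : ((m + 2 ^ t) ^ 2 + 1) * (2 * n ^ 2) ≤ x)
    (hsmall : ((2 ^ t).factorial : ℝ) / (m : ℝ) ^ (2 ^ t + 1) ≤ τ)
    (hμ : (2 ^ (2 ^ t) + 1) * muErr g x n τ < 2 * π) :
    sg g m * sg g (m + 2 ^ t) = 1 := by
  have hm0 : (0 : ℝ) < m := by exact_mod_cast hm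
  have h1 := Dm_iter h hn hτ hτ' (2 ^ t) hm hx
  rw [Ts_pow t (sg_sq h)] at h1
  obtain ⟨ξ, hξ1, hξ2, hξ3⟩ := exists_mvt (2 ^ t) 0 m
  have hq1 : 1 ≤ 2 ^ t := Nat.one_le_two_pow
  obtain ⟨r, hr⟩ : ∃ r, 2 ^ t = r + 1 := ⟨2 ^ t - 1, by omega⟩
  have h2 : |(Tf^[2 ^ t] (fB 0)) m| ≤ τ := by
    rw [hξ3, zero_add, hr]
    have hξ0 : 0 < ξ := by linarith
    have hlow : 0 ≤ fB (r + 1) ξ := by
      refine le_trans (by positivity) (fB_lower (r := r) ?_)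
      have : ((r + 1 : ℕ) : ℝ) ≤ m := by rw [← hr]; exact_mod_cast hqm
      push_cast at this
      linarith
    rw [abs_of_nonneg hlow]
    refine (fB_upper hξ0).trans ?_
    rw [hr] at hsmall
    refine le_trans ?_ hsmall
    have : (m : ℝ) ^ (r + 1 + 1) ≤ ξ ^ (r + 2) := pow_le_pow_left₀ hm0.le hξ1 _
    apply div_le_div_of_nonneg_left (by positivity) (by positivity) this
  have hx2 : 2 * n ^ 2 ≤ x := le_trans (by nlinarith [Nat.zero_le (n ^ 2)]) hx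
  have h3 := Dm_small_le h hn hτ hτ' hx2 h2
  rcases F_sign h (mk_one_ne (m : ℤ)) with h4 | h4 <;>
    rcases F_sign h (mk_one_ne ((m + 2 ^ t : ℕ) : ℤ)) with h5 | h5
  · unfold sg; rw [h4, h5]; norm_num
  · exfalso
    have h6 : sg g m * sg g (m + 2 ^ t) = -1 := by unfold sg; rw [h4, h5]; norm_num
    rw [h6] at h1
    have := Dm_compl (GF g n τ) (GF_ne_zero h n τ) (((Tf^[2 ^ t] (fB 0)) m : ℝ) : Circ)
    linarith
  · exfalso
    have h6 : sg g m * sg g (m + 2 ^ t) = -1 := by unfold sg; rw [h4, h5]; norm_num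
    rw [h6] at h1
    have := Dm_compl (GF g n τ) (GF_ne_zero h n τ) (((Tf^[2 ^ t] (fB 0)) m : ℝ) : Circ)
    linarith
  · unfold sg; rw [h4, h5]; norm_num

/-- almost periods `ε_l` -/
lemma Dm_eps {M q : ℕ} (hM : 1 ≤ M) {L : ℕ}
    (hper : ∀ m, M ≤ m → m ≤ M + L → sg g m * sg g (m + q) = 1)
    (hx : ((M + L + q) ^ 2 + 1) * (2 * n ^ 2) ≤ x) (l : ℕ) :
    ∀ {m : ℕ}, M ≤ m → m + l ≤ M + L →
    Dm (GF g n τ) 1 (((Tf^[l] (fB 0)) m - (Tf^[l] (fB 0)) (m + q) : ℝ) : Circ) ≤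
      2 ^ (l + 1) * muErr g x n τ := by
  induction l with
  | zero =>
    intro m hm hmL
    simp only [Function.iterate_zero, id_eq, zero_add, pow_one]
    have h1 := Dm_base h hn hτ hτ' (m := m) (x := x) (by omega)
      (le_trans (by gcongr; omega) hx)
    have h2 := Dm_base h hn hτ hτ' (m := m + q) (x := x) (by omega)
      (le_trans (by gcongr; omega) hx)
    have h3 := Dm_sub (GF g n τ) (σ := sg g m) (σ' := sg g (m + q)) (sg_sq h _)
      ((fB 0 m : ℝ) : Circ) ((fB 0 ((m + q : ℕ) : ℝ) : ℝ) : Circ)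
    rw [hper m hm (by omega), ← AddCircle.coe_sub] at h3
    have h4 : ((m + q : ℕ) : ℝ) = (m : ℝ) + q := by push_cast; ring
    rw [h4] at h3 h2
    linarith
  | succ l ih =>
    intro m hm hmL
    have h1 := ih hm (by omega)
    have h2 := ih (m := m + 1) (by omega) (by omega)
    have h3 := Dm_sub (GF g n τ) (σ := 1) (σ' := 1) (by norm_num)
      (((Tf^[l] (fB 0)) m - (Tf^[l] (fB 0)) (m + q) : ℝ) : Circ)
      (((Tf^[l] (fB 0)) ((m + 1 : ℕ) : ℝ) - (Tf^[l] (fB 0)) (((m + 1 : ℕ) : ℝ) + q) : ℝ) : Circ)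
    rw [mul_one, ← AddCircle.coe_sub] at h3
    have h4 : ((m + 1 : ℕ) : ℝ) = (m : ℝ) + 1 := by push_cast; ring
    rw [h4] at h3 h2
    have h5 : (Tf^[l + 1] (fB 0)) m - (Tf^[l + 1] (fB 0)) (m + q) =
        (Tf^[l] (fB 0)) m - (Tf^[l] (fB 0)) (m + q) -
        ((Tf^[l] (fB 0)) ((m : ℝ) + 1) - (Tf^[l] (fB 0)) ((m : ℝ) + 1 + q)) := by
      rw [Tf_iter_succ, Tf_iter_succ, show (m : ℝ) + q + 1 = (m : ℝ) + 1 + q by ring]
      ring
    rw [h5]
    refine h3.trans ?_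
    rw [pow_succ 2 (l + 1)]
    linarith

end

lemma greedy_step {G : Circ → ℤ} {e e' R c w : ℝ} (he' : 0 < e') (hR : e ≤ R * e')
    (hc : Dm G 1 (e' : Circ) ≤ c) (hw : ∀ A : ℝ, 0 ≤ A → A ≤ e' → Dm G 1 (A : Circ) ≤ w)
    {A : ℝ} (hA : 0 ≤ A) (hAe : A ≤ e) : Dm G 1 (A : Circ) ≤ R * c + w := by
  have hc0 : 0 ≤ c := (Dm_nonneg _ _ _).trans hc
  set j := ⌊A / e'⌋₊ with hj
  have hj1 : (j : ℝ) ≤ A / e' := Nat.floor_le (by positivity)
  have hj2 : A / e' < j + 1 := Nat.lt_floor_add_one _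
  have hj1' : (j : ℝ) * e' ≤ A := by rwa [le_div_iff₀ he'] at hj1
  have hj2' : A < (j + 1) * e' := by rwa [div_lt_iff₀ he'] at hj2
  have h1 : (A : Circ) = (j • (e' : Circ)) + ((A - j * e' : ℝ) : Circ) := by
    rw [← AddCircle.coe_nsmul, ← AddCircle.coe_add, nsmul_eq_mul]
    congr 1; ring
  have h2 := Dm_add G (σ := 1) (σ' := 1) (j • (e' : Circ)) ((A - j * e' : ℝ) : Circ)
  rw [mul_one, ← h1] at h2
  have h3 := Dm_nsmul G (e' : Circ) j
  have h4 := hw (A - j * e') (by linarith) (by linarith)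
  have h5 : (j : ℝ) ≤ R := by
    have : (j : ℝ) * e' ≤ R * e' := by linarith
    exact le_of_mul_le_mul_right this he'
  have h6 : (j : ℝ) * Dm G 1 (e' : Circ) ≤ R * c := by
    apply mul_le_mul h5 hc (Dm_nonneg _ _ _)
    exact (Nat.cast_nonneg j).trans h5
  linarith

lemma greedy_chain {G : Circ → ℤ} {e : ℕ → ℝ} {L : ℕ} {R μ : ℝ}
    (hpos : ∀ l, l ≤ L → 0 < e l) (hR : ∀ l, l < L → e l ≤ R * e (l + 1))
    (hD : ∀ l, l ≤ L → Dm G 1 (e l : Circ) ≤ 2 ^ (l + 1) * μ)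
    (hbase : ∀ A : ℝ, 0 ≤ A → A ≤ e L → Dm G 1 (A : Circ) ≤ μ) (i : ℕ) (hi : i ≤ L) :
    ∀ A : ℝ, 0 ≤ A → A ≤ e (L - i) →
      Dm G 1 (A : Circ) ≤ (1 + R * (2 ^ (L + 2) - 2 ^ (L - i + 2))) * μ := by
  induction i with
  | zero =>
    intro A hA hAe
    have := hbase A hA (by simpa using hAe)
    simpa using this
  | succ i ih =>
    intro A hA hAe
    have h1 : L - i = L - (i + 1) + 1 := by omega
    have h2 := greedy_step (G := G) (e := e (L - (i + 1))) (e' := e (L - i)) (R := R)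
      (hpos _ (by omega)) (by rw [h1]; exact hR _ (by omega)) (hD (L - i) (by omega))
      (ih (by omega)) hA hAe
    refine h2.trans (le_of_eq ?_)
    rw [h1]
    ring

/-- the numbers `ε_l` -/
noncomputable def epsL (M q : ℕ) (l : ℕ) : ℝ :=
  (Tf^[l] (fB 0)) M - (Tf^[l] (fB 0)) (M + q)

lemma epsL_eq {M q : ℕ} (hq : 1 ≤ q) (l : ℕ) : ∃ ξ : ℝ, M ≤ ξ ∧ ξ ≤ M + q + l ∧
    epsL M q l = q * fB (l + 1) ξ := by
  have hq' : (0 : ℝ) < q := by exact_mod_cast hq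
  obtain ⟨c, h1, h2, h3⟩ := exists_mvt_step l 0 M q hq'
  obtain ⟨ξ, h4, h5, h6⟩ := exists_mvt l (0 + 1) c
  refine ⟨ξ, by linarith, by linarith, ?_⟩
  unfold epsL
  rw [h3, h6]
  congr 2
  ring

lemma epsL_upper {M q : ℕ} (hM : 1 ≤ M) (hq : 1 ≤ q) (l : ℕ) :
    epsL M q l ≤ q * ((l + 1).factorial / (M : ℝ) ^ (l + 2)) := by
  obtain ⟨ξ, h1, h2, h3⟩ := epsL_eq (M := M) hq l
  have hM' : (0 : ℝ) < M := by exact_mod_cast hM
  have hξ : 0 < ξ := by linarith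
  rw [h3]
  apply mul_le_mul_of_nonneg_left _ (Nat.cast_nonneg q)
  refine (fB_upper hξ).trans ?_
  have : (M : ℝ) ^ (l + 2) ≤ ξ ^ (l + 2) := pow_le_pow_left₀ hM'.le h1 _
  apply div_le_div_of_nonneg_left (by positivity) (by positivity) this

lemma epsL_lower {M q l : ℕ} (hq : 1 ≤ q) (hl : l + 1 ≤ M) :
    q * (3 / 4 * ((l + 1).factorial / ((M : ℝ) + q + l + 1) ^ (l + 2))) ≤ epsL M q l := by
  obtain ⟨ξ, h1, h2, h3⟩ := epsL_eq (M := M) hq l
  have hM' : (0 : ℝ) < M := by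
    have : 1 ≤ M := by omega
    exact_mod_cast this
  have hξ : 0 < ξ := by linarith
  rw [h3]
  apply mul_le_mul_of_nonneg_left _ (Nat.cast_nonneg q)
  have hl' : ((l + 1 : ℕ) : ℝ) ≤ M := by exact_mod_cast hl
  push_cast at hl'
  refine le_trans ?_ (fB_lower (r := l) (by linarith))
  have : (ξ + 1) ^ (l + 2) ≤ ((M : ℝ) + q + l + 1) ^ (l + 2) :=
    pow_le_pow_left₀ (by linarith) (by linarith) _
  apply mul_le_mul_of_nonneg_left _ (by norm_num)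
  apply div_le_div_of_nonneg_left (by positivity) (by positivity) this

lemma epsL_ratio {M q l : ℕ} (hq : 1 ≤ q) (hM : (l + 3) * (q + l + 2) ≤ M) :
    epsL M q l ≤ 2 * M * epsL M q (l + 1) := by
  have hM1 : l + 2 ≤ M := by nlinarith
  have hM0 : (0 : ℝ) < M := by
    have : 1 ≤ M := by omega
    exact_mod_cast this
  have hq' : (0 : ℝ) < q := by exact_mod_cast hq
  refine (epsL_upper (by omega) hq l).trans ?_
  have h1 := epsL_lower (M := M) (l := l + 1) hq (by omega)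
  have h2 : 2 * (M : ℝ) * (q * (3 / 4 * ((l + 1 + 1).factorial /
      ((M : ℝ) + q + ((l + 1 : ℕ) : ℝ) + 1) ^ (l + 1 + 2)))) ≤ 2 * M * epsL M q (l + 1) :=
    mul_le_mul_of_nonneg_left h1 (by positivity)
  refine le_trans ?_ h2
  -- (1 + (q+l+2)/M)^(l+3) ≤ 3
  set a : ℝ := ((q : ℝ) + l + 2) / M with ha
  have ha0 : 0 ≤ a := by positivity
  have hna : ((l + 3 : ℕ) : ℝ) * a ≤ 1 := by
    rw [ha, ← mul_div_assoc, div_le_one hM0]
    have : (((l + 3) * (q + l + 2) : ℕ) : ℝ) ≤ M := by exact_mod_cast hM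
    push_cast at this ⊢
    linarith
  have h3 : (1 + a) ^ (l + 3) ≤ 3 := by
    calc (1 + a) ^ (l + 3) ≤ (exp a) ^ (l + 3) := by
          apply pow_le_pow_left₀ (by positivity)
          linarith [add_one_le_exp a]
      _ = exp (((l + 3 : ℕ) : ℝ) * a) := by rw [← exp_nat_mul]
      _ ≤ exp 1 := exp_le_exp.2 hna
      _ ≤ 3 := exp_one_lt_three.le
  have h4 : ((M : ℝ) + q + ((l + 1 : ℕ) : ℝ) + 1) ^ (l + 1 + 2) = M ^ (l + 3) * (1 + a) ^ (l + 3) := by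
    rw [← mul_pow]
    have : (M : ℝ) * (1 + a) = (M : ℝ) + q + ((l + 1 : ℕ) : ℝ) + 1 := by
      rw [ha]; push_cast; field_simp; ring
    rw [this]
  rw [h4]
  have hf : (((l + 1 + 1).factorial : ℕ) : ℝ) = (l + 2) * ((l + 1).factorial : ℝ) := by
    rw [Nat.factorial_succ (l + 1)]; push_cast; ring
  rw [hf]
  have h5 : 0 < (1 + a) ^ (l + 3) := by positivity
  have h6 : (3 : ℝ) ≤ 3 / 2 * (l + 2) := by
    have : (0 : ℝ) ≤ l := Nat.cast_nonneg l
    linarith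
  have hfac : (0 : ℝ) < ((l + 1).factorial : ℝ) := by exact_mod_cast Nat.factorial_pos _
  calc (q : ℝ) * (((l + 1).factorial : ℝ) / (M : ℝ) ^ (l + 2))
      = (q * ((l + 1).factorial : ℝ) / (M : ℝ) ^ (l + 2)) * 1 := by ring
    _ ≤ (q * ((l + 1).factorial : ℝ) / (M : ℝ) ^ (l + 2)) *
          ((3 / 2 * (l + 2)) / (1 + a) ^ (l + 3)) := by
        apply mul_le_mul_of_nonneg_left _ (by positivity)
        rw [le_div_iff₀ h5]
        linarith
    _ = _ := by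
        field_simp
        ring

lemma epsL_pos {M q l : ℕ} (hq : 1 ≤ q) (hl : l + 1 ≤ M) : 0 < epsL M q l := by
  refine lt_of_lt_of_le ?_ (epsL_lower hq hl)
  have hM0 : (0 : ℝ) < M := by
    have : 1 ≤ M := by omega
    exact_mod_cast this
  have hq' : (0 : ℝ) < q := by exact_mod_cast hq
  positivity

theorem main_explicit {g : ℕ → ℤ} (h : CM g) {x n : ℕ} (hn : 0 < n) {τ : ℝ} (hτ : 0 < τ)
    (hτ' : 2 * τ < π / 2) {t M : ℕ} (hM : (2 * 2 ^ t + 1) * (2 ^ t + 2) ≤ M)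
    (hx : ((M + 2 ^ t + 2 ^ t) ^ 2 + 1) * (2 * n ^ 2) ≤ x)
    (hsmall : ((2 ^ t).factorial : ℝ) / (M : ℝ) ^ (2 ^ t + 1) ≤ τ)
    (hμ : (2 + 8 * M * 2 ^ (2 ^ t) + 72 * M ^ 2) * muErr g x n τ < 2 * π)
    {k : GaussianInt} (hk : k ≠ 0) (hkx : k.norm * (2 * (n : ℤ) ^ 2) ≤ x) : F g k = 1 := by
  have hq1 : 1 ≤ 2 ^ t := Nat.one_le_two_pow
  set q := 2 ^ t with hqdef
  have hqM : q + 1 ≤ M := by nlinarith
  have hM1 : 1 ≤ M := by omega
  have hM0 : (0 : ℝ) < M := by exact_mod_cast hM1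
  have hM1' : (1 : ℝ) ≤ M := by exact_mod_cast hM1
  have hμ0 : 0 ≤ muErr g x n τ := muErr_nonneg hn hτ
  have h2q : (1 : ℝ) ≤ 2 ^ q := one_le_pow₀ (by norm_num)
  -- periodicity of the signs
  have hper : ∀ m, M ≤ m → m ≤ M + q → sg g m * sg g (m + q) = 1 := by
    intro m hm hm2
    refine sg_period h hn hτ hτ' (x := x) (by omega) (by omega)
      (le_trans (by gcongr) hx) ?_ ?_
    · refine le_trans ?_ hsmall
      have hm' : (M : ℝ) ≤ m := by exact_mod_cast hm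
      apply div_le_div_of_nonneg_left (by positivity) (by positivity)
      exact pow_le_pow_left₀ hM0.le hm' _
    · refine lt_of_le_of_lt ?_ hμ
      apply mul_le_mul_of_nonneg_right _ hμ0
      rw [← hqdef]
      nlinarith [sq_nonneg (M : ℝ)]
  have hDe : ∀ l, l ≤ q → Dm (GF g n τ) 1 (epsL M q l : Circ) ≤ 2 ^ (l + 1) * muErr g x n τ := by
    intro l hl
    exact Dm_eps h hn hτ hτ' hM1 (L := q) hper hx l le_rfl (by omega)
  -- last one is small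
  have hlast : epsL M q q ≤ τ := by
    refine (epsL_upper hM1 hq1 q).trans ?_
    refine le_trans ?_ hsmall
    have hqq : ((q * (q + 1) : ℕ) : ℝ) ≤ M := by
      have : q * (q + 1) ≤ M := by nlinarith
      exact_mod_cast this
    push_cast at hqq
    have : (q : ℝ) * (((q + 1).factorial : ℝ) / (M : ℝ) ^ (q + 2)) =
        ((q : ℝ) * (q + 1) / M) * ((q.factorial : ℝ) / (M : ℝ) ^ (q + 1)) := by
      rw [Nat.factorial_succ]
      push_cast
      field_simp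
      ring
    rw [this]
    have h1 : (q : ℝ) * (q + 1) / M ≤ 1 := by rw [div_le_one hM0]; exact hqq
    calc ((q : ℝ) * (q + 1) / M) * ((q.factorial : ℝ) / (M : ℝ) ^ (q + 1))
        ≤ 1 * ((q.factorial : ℝ) / (M : ℝ) ^ (q + 1)) := by gcongr
      _ = _ := one_mul _
  have hx2 : 2 * n ^ 2 ≤ x := le_trans (by nlinarith [Nat.zero_le (n ^ 2)]) hx
  have hchain := greedy_chain (G := GF g n τ) (e := epsL M q) (L := q) (R := 2 * M)
    (μ := muErr g x n τ) (fun l hl => epsL_pos hq1 (by omega))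
    (fun l hl => epsL_ratio hq1 (by
      calc (l + 3) * (q + l + 2) ≤ (q + 2) * (2 * q + 1) := Nat.mul_le_mul (by omega) (by omega)
        _ = (2 * q + 1) * (q + 2) := by ring
        _ ≤ M := hM)) hDe
    (fun A hA hA2 => Dm_small_le h hn hτ hτ' hx2 (by rw [abs_of_nonneg hA]; exact hA2.trans hlast))
    q le_rfl
  rw [Nat.sub_self] at hchain
  -- the first step
  have hfirst : π ≤ (36 * (M : ℝ) ^ 2) * epsL M q 0 := by
    have h1 := epsL_lower (M := M) (l := 0) hq1 (by omega)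
    simp only [zero_add, Nat.factorial_one, Nat.cast_one, Nat.cast_zero, add_zero] at h1
    have hq' : (1 : ℝ) ≤ q := by exact_mod_cast hq1
    have hqM' : (q : ℝ) + 1 ≤ M := by exact_mod_cast hqM
    have h2 : 3 / (16 * (M : ℝ) ^ 2) ≤ epsL M q 0 := by
      refine le_trans ?_ h1
      have h3 : ((M : ℝ) + q + 1) ^ 2 ≤ (2 * M) ^ 2 := pow_le_pow_left₀ (by positivity) (by linarith) 2
      calc 3 / (16 * (M : ℝ) ^ 2) = 1 * (3 / 4 * (1 / (2 * (M : ℝ)) ^ 2)) := by field_simp; norm_num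
        _ ≤ q * (3 / 4 * (1 / ((M : ℝ) + q + 1) ^ 2)) := by
            gcongr
    calc π ≤ 36 * (3 / 16) := by linarith [pi_lt_d2]
      _ = (36 * (M : ℝ) ^ 2) * (3 / (16 * (M : ℝ) ^ 2)) := by field_simp
      _ ≤ _ := mul_le_mul_of_nonneg_left h2 (by positivity)
  have hall : ∀ A : ℝ, 0 ≤ A → A ≤ π → Dm (GF g n τ) 1 (A : Circ) ≤
      (1 + 8 * M * 2 ^ q + 72 * M ^ 2) * muErr g x n τ := by
    intro A hA hA2
    have h1 := greedy_step (G := GF g n τ) (e := π) (e' := epsL M q 0) (R := 36 * (M : ℝ) ^ 2)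
      (epsL_pos hq1 (by omega)) hfirst (hDe 0 (by omega)) hchain hA hA2
    refine h1.trans ?_
    have h2 : (36 * (M : ℝ) ^ 2) * (2 ^ (0 + 1) * muErr g x n τ) +
        (1 + 2 * M * (2 ^ (q + 2) - 2 ^ (0 + 2))) * muErr g x n τ =
        (1 + 8 * M * 2 ^ q - 8 * M + 72 * M ^ 2) * muErr g x n τ := by
      rw [pow_add 2 q 2]; ring
    rw [h2]
    apply mul_le_mul_of_nonneg_right _ hμ0
    linarith
  -- conclusion
  rcases F_sign h hk with h1 | h1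
  · exact h1
  · exfalso
    have h2 := Dm_mul_le h hn hτ (by linarith) hk hkx
    rw [h1] at h2
    have h3 : Dm (GF g n τ) 1 (gArg k) ≤ (1 + 8 * M * 2 ^ q + 72 * M ^ 2) * muErr g x n τ := by
      unfold gArg
      have habs := Complex.abs_arg_le_pi (k : ℂ)
      rcases le_total 0 (Complex.arg (k : ℂ)) with h4 | h4
      · rw [abs_of_nonneg h4] at habs
        exact hall _ h4 habs
      · rw [abs_of_nonpos h4] at habs
        rw [← neg_neg (Complex.arg (k : ℂ)), AddCircle.coe_neg, Dm_neg _ (by norm_num)]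
        exact hall _ (by linarith) habs
    have h4 := Dm_compl (GF g n τ) (GF_ne_zero h n τ) (gArg k)
    have h5 : (2 + 8 * M * 2 ^ q + 72 * M ^ 2) * muErr g x n τ =
      (1 + 8 * M * 2 ^ q + 72 * M ^ 2) * muErr g x n τ + muErr g x n τ := by ring
    linarith

end Pool.Agent.MP484c84Par
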