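import Pool.Agent.Lib.MP484c84Par.Cone

/-!
# Measure estimates on the circle of directions
-/

namespace Pool.Agent.MP484c84Par

open Real MeasureTheory

lemma real_closedBall_le (c : Circ) {ε : ℝ} (hε : 0 ≤ ε) :
    (volume : Measure Circ).real (Metric.closedBall c ε) ≤ 2 * ε := by
  rw [Measure.real, AddCircle.volume_closedBall]
  rw [ENNReal.toReal_ofReal (le_min two_pi_pos.le (by linarith))]
  exact min_le_right _ _

lemma arctan_lip (x y : ℝ) : |arctan x - arctan y| ≤ |x - y| := by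
  have h : LipschitzWith 1 arctan := by
    apply lipschitzWith_of_nnnorm_deriv_le differentiable_arctan
    intro x
    rw [Real.deriv_arctan, ← NNReal.coe_le_coe, coe_nnnorm, norm_eq_abs, NNReal.coe_one,
      abs_of_nonneg (by positivity), div_le_one (by positivity)]
    nlinarith [sq_nonneg x]
  have := h.dist_le_mul x y
  simpa [dist_eq] using this

lemma gArg_of_pos {k j : ℤ} (hk : 0 < k) :
    gArg ⟨k, j⟩ = ((arctan ((j : ℝ) / k) : ℝ) : Circ) := by
  unfold gArg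
  congr 1
  have h1 : ((⟨k, j⟩ : GaussianInt) : ℂ).re = k := by simp [GaussianInt.toComplex_def]
  have h2 : ((⟨k, j⟩ : GaussianInt) : ℂ).im = j := by simp [GaussianInt.toComplex_def]
  have h3 : |Complex.arg ((⟨k, j⟩ : GaussianInt) : ℂ)| < π / 2 := by
    rw [Complex.abs_arg_lt_pi_div_two_iff]
    left; rw [h1]; exact_mod_cast hk
  have h4 := Complex.tan_arg ((⟨k, j⟩ : GaussianInt) : ℂ)
  rw [h1, h2] at h4
  rw [← h4, arctan_tan (abs_lt.1 h3).1 (abs_lt.1 h3).2]

lemma norm_coe_le (t : ℝ) : ‖((t : ℝ) : Circ)‖ ≤ |t| := by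
  rw [AddCircle.norm_eq]
  have hp : (0 : ℝ) < 2 * π := two_pi_pos
  have h1 : |t - round ((2 * π)⁻¹ * t) * (2 * π)| = (2 * π) * |(2 * π)⁻¹ * t - round ((2 * π)⁻¹ * t)| := by
    rw [← abs_of_pos hp, ← abs_mul, abs_of_pos hp]
    congr 1
    field_simp
  rw [h1]
  have h2 := round_le ((2 * π)⁻¹ * t) 0
  simp only [Int.cast_zero, sub_zero] at h2
  calc (2 * π) * |(2 * π)⁻¹ * t - round ((2 * π)⁻¹ * t)| ≤ (2 * π) * |(2 * π)⁻¹ * t| := by
        apply mul_le_mul_of_nonneg_left h2 hp.le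
    _ = |t| := by
        rw [abs_mul, abs_of_pos (inv_pos.2 hp)]
        field_simp

/-- Dirichlet: near every direction in the first octants there is a short vector -/
lemma dirichlet_octant {n : ℕ} (hn : 0 < n) {θ : ℝ} (hθ : |θ| ≤ π / 4) :
    ∃ k j : ℤ, 0 < k ∧ k ≤ n ∧ -k ≤ j ∧ j ≤ k ∧
      |arctan ((j : ℝ) / k) - θ| ≤ 1 / (k * (n + 1)) := by
  obtain ⟨j, k, hk0, hkn, hjk⟩ := Real.exists_int_int_abs_mul_sub_le (tan θ) hn
  have hpi := pi_pos
  obtain ⟨hθ1, hθ2⟩ := abs_le.1 hθ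
  have hk0' : (0 : ℝ) < k := by exact_mod_cast hk0
  have hk1' : (1 : ℝ) ≤ k := by exact_mod_cast hk0
  have hn1 : (0 : ℝ) < n + 1 := by positivity
  have htan : |tan θ| ≤ 1 := by
    have hc : cos θ ≠ 0 := (cos_pos_of_mem_Ioo ⟨by linarith, by linarith⟩).ne'
    rw [abs_le]
    constructor
    · rw [← tan_pi_div_four, ← tan_neg]
      rcases eq_or_lt_of_le hθ1 with h | h
      · rw [h]
      · exact (tan_lt_tan_of_lt_of_lt_pi_div_two (by linarith) (by linarith) h).le
    · rw [← tan_pi_div_four]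
      rcases eq_or_lt_of_le hθ2 with h | h
      · rw [h]
      · exact (tan_lt_tan_of_lt_of_lt_pi_div_two (by linarith) (by linarith) h).le
  have hj : |(j : ℝ)| < k + 1 := by
    have h1 : |(j : ℝ)| ≤ |(k : ℝ) * tan θ| + 1 / (n + 1) := by
      have h2 : (j : ℝ) = (k : ℝ) * tan θ - ((k : ℝ) * tan θ - j) := by ring
      calc |(j : ℝ)| = |(k : ℝ) * tan θ - ((k : ℝ) * tan θ - j)| := by rw [← h2]
        _ ≤ |(k : ℝ) * tan θ| + |(k : ℝ) * tan θ - j| := abs_sub _ _
        _ ≤ _ := by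
            have : |(k : ℝ) * tan θ - j| ≤ 1 / (n + 1) := by
              rw [mul_comm]
              rw [mul_comm] at hjk
              simpa using hjk
            linarith
    have h3 : |(k : ℝ) * tan θ| ≤ k := by
      rw [abs_mul, abs_of_pos hk0']
      nlinarith
    have h4 : (1 : ℝ) / (n + 1) < 1 := by
      rw [div_lt_one hn1]
      have : (0 : ℝ) < n := by exact_mod_cast hn
      linarith
    linarith
  have hj' : |j| < k + 1 := by exact_mod_cast hj
  have hj2 := abs_le.1 (Int.lt_add_one_iff.1 hj')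
  refine ⟨k, j, hk0, hkn, hj2.1, hj2.2, ?_⟩
  have h5 : θ = arctan (tan θ) := (arctan_tan (by linarith) (by linarith)).symm
  calc |arctan ((j : ℝ) / k) - θ| = |arctan ((j : ℝ) / k) - arctan (tan θ)| := by rw [← h5]
    _ ≤ |(j : ℝ) / k - tan θ| := arctan_lip _ _
    _ = |(k : ℝ) * tan θ - j| / k := by
        rw [abs_sub_comm, ← abs_of_pos hk0', ← abs_div, abs_of_pos hk0']
        congr 1
        field_simp
    _ ≤ (1 / (n + 1)) / k := by
        apply div_le_div_of_nonneg_right _ hk0'.le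
        rw [mul_comm]
        rw [mul_comm] at hjk
        simpa using hjk
    _ = 1 / (k * (n + 1)) := by field_simp

/-- the fourth roots of unity -/
def iPow (r : ℕ) : GaussianInt := (⟨0, 1⟩ : GaussianInt) ^ r

lemma iPow_ne (r : ℕ) : iPow r ≠ 0 := by
  unfold iPow
  apply pow_ne_zero
  intro h
  have := congrArg Zsqrtd.im h
  simp at this

lemma iPow_norm (r : ℕ) : (iPow r).norm = 1 := by
  unfold iPow
  induction r with
  | zero => simp
  | succ r ih => rw [pow_succ, Zsqrtd.norm_mul, ih, norm_def']; simp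

lemma gArg_one : gArg 1 = 0 := by
  unfold gArg
  simp

lemma gArg_I : gArg ⟨0, 1⟩ = ((π / 2 : ℝ) : Circ) := by
  unfold gArg
  congr 1
  have : ((⟨0, 1⟩ : GaussianInt) : ℂ) = Complex.I := by simp [GaussianInt.toComplex_def]
  rw [this, Complex.arg_I]

lemma gArg_iPow (r : ℕ) : gArg (iPow r) = ((r * (π / 2) : ℝ) : Circ) := by
  unfold iPow
  induction r with
  | zero => simp [gArg_one]
  | succ r ih =>
    rw [pow_succ, gArg_mul (by simpa [iPow] using iPow_ne r) (by simpa [iPow] using iPow_ne 1), ih,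
      gArg_I]
    rw [← AddCircle.coe_add]
    congr 1
    push_cast; ring

/-- every angle is an angle in the first octants plus a multiple of `π/2` -/
lemma exists_octant (θ : Circ) : ∃ r : ℕ, r < 4 ∧ ∃ θ' : ℝ, |θ'| ≤ π / 4 ∧
    θ = ((θ' : ℝ) : Circ) + gArg (iPow r) := by
  induction θ using QuotientAddGroup.induction_on with
  | _ θ =>
  set R : ℤ := round (θ / (π / 2)) with hR
  have hpi := pi_pos
  refine ⟨(R % 4).toNat, by omega, θ - R * (π / 2), ?_, ?_⟩
  · have h1 := abs_sub_round (θ / (π / 2))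
    have h2 : θ - R * (π / 2) = (π / 2) * (θ / (π / 2) - R) := by field_simp
    rw [h2, abs_mul, abs_of_pos (by positivity), hR]
    nlinarith
  · rw [gArg_iPow]
    have h3 : (((R % 4).toNat : ℕ) : ℝ) = (R : ℝ) - 4 * ((R / 4 : ℤ) : ℝ) := by
      have h4 : (((R % 4).toNat : ℕ) : ℤ) = R - 4 * (R / 4) := by omega
      have h5 : ((((R % 4).toNat : ℕ) : ℤ) : ℝ) = ((R - 4 * (R / 4) : ℤ) : ℝ) := by rw [h4]
      rw [Int.cast_sub, Int.cast_mul] at h5
      rw [Int.cast_natCast] at h5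
      rw [h5]; norm_num
    rw [h3]
    show ((θ : ℝ) : Circ) = _
    rw [← AddCircle.coe_add]
    have h5 : θ = (θ - R * (π / 2) + ((R : ℝ) - 4 * ((R / 4 : ℤ) : ℝ)) * (π / 2)) +
        (R / 4 : ℤ) • (2 * π) := by
      rw [zsmul_eq_mul]; ring
    conv_lhs => rw [h5]
    rw [AddCircle.coe_add, AddCircle.coe_zsmul, AddCircle.coe_period]
    simp

/-- directions with no short vector nearby -/
def excSet (n : ℕ) (τ : ℝ) : Set Circ :=
  {θ | ¬ ∃ z : GaussianInt, cone θ τ z ∧ z.norm ≤ 2 * (n : ℤ) ^ 2}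

lemma excSet_subset {n : ℕ} (hn : 0 < n) {τ : ℝ} (hτ : 0 < τ) :
    excSet n τ ⊆ ⋃ r ∈ Finset.range 4, ⋃ k ∈ Finset.Icc 1 ⌊1 / (τ * (n + 1))⌋₊,
      ⋃ j ∈ Finset.Icc (-(k : ℤ)) k,
        Metric.closedBall (((arctan ((j : ℝ) / k) : ℝ) : Circ) + gArg (iPow r))
          (1 / (k * (n + 1))) := by
  intro θ hθ
  obtain ⟨r, hr, θ', hθ', hθe⟩ := exists_octant θ
  obtain ⟨k, j, hk0, hkn, hj1, hj2, hd⟩ := dirichlet_octant hn hθ'
  lift k to ℕ using hk0.le
  have hk0' : 0 < k := by exact_mod_cast hk0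
  have hkr : (0 : ℝ) < k := by exact_mod_cast hk0'
  have hdist : ‖(((arctan ((j : ℝ) / k) : ℝ) : Circ) + gArg (iPow r)) - θ‖ ≤ 1 / (k * (n + 1)) := by
    rw [hθe]
    have : (((arctan ((j : ℝ) / k) : ℝ) : Circ) + gArg (iPow r)) -
        (((θ' : ℝ) : Circ) + gArg (iPow r)) = ((arctan ((j : ℝ) / k) - θ' : ℝ) : Circ) := by
      rw [AddCircle.coe_sub]; abel
    rw [this]
    refine (norm_coe_le _).trans ?_
    rw [Int.cast_natCast] at hd
    exact hd
  have hkb : k ≤ ⌊1 / (τ * (n + 1))⌋₊ := by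
    by_contra hcon
    push Not at hcon
    have h1 : 1 / (τ * (n + 1)) < k := Nat.lt_of_floor_lt hcon
    apply hθ
    have hz0 : (⟨(k : ℤ), j⟩ : GaussianInt) ≠ 0 := by
      intro h
      have := congrArg Zsqrtd.re h
      simp at this
      omega
    refine ⟨iPow r * ⟨k, j⟩, ⟨mul_ne_zero (iPow_ne r) hz0, ?_⟩, ?_⟩
    · rw [gArg_mul (iPow_ne r) hz0, gArg_of_pos (k := (k : ℤ)) (by exact_mod_cast hk0), add_comm]
      rw [Int.cast_natCast]
      have h2 : 1 / ((k : ℝ) * (n + 1)) ≤ τ := by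
        rw [div_le_iff₀ (by positivity)]
        rw [div_lt_iff₀ (by positivity)] at h1
        nlinarith
      exact hdist.trans h2
    · rw [Zsqrtd.norm_mul, iPow_norm, one_mul, norm_def']
      have hkn' : (k : ℤ) ≤ n := hkn
      have h3 : (j : ℤ) * j ≤ n * n := by nlinarith
      show (k : ℤ) * k + j * j ≤ 2 * (n : ℤ) ^ 2
      nlinarith
  simp only [Set.mem_iUnion]
  refine ⟨r, Finset.mem_range.2 hr, k, Finset.mem_Icc.2 ⟨hk0', hkb⟩, j,
    Finset.mem_Icc.2 ⟨hj1, hj2⟩, ?_⟩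
  rw [Metric.mem_closedBall, dist_comm, dist_eq_norm]
  exact hdist

theorem excSet_measure {n : ℕ} (hn : 0 < n) {τ : ℝ} (hτ : 0 < τ) :
    (volume : Measure Circ).real (excSet n τ) ≤ 24 / (τ * (n + 1) ^ 2) := by
  refine (measureReal_mono (excSet_subset hn hτ) (measure_ne_top _ _)).trans ?_
  refine (measureReal_biUnion_finset_le _ _).trans ?_
  have h1 : ∀ r ∈ Finset.range 4,
      (volume : Measure Circ).real (⋃ k ∈ Finset.Icc 1 ⌊1 / (τ * (n + 1))⌋₊,
      ⋃ j ∈ Finset.Icc (-(k : ℤ)) k,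
        Metric.closedBall (((arctan ((j : ℝ) / k) : ℝ) : Circ) + gArg (iPow r))
          (1 / (k * (n + 1)))) ≤ 6 / (τ * (n + 1) ^ 2) := by
    intro r _
    refine (measureReal_biUnion_finset_le _ _).trans ?_
    have h2 : ∀ k ∈ Finset.Icc 1 ⌊1 / (τ * (n + 1))⌋₊,
        (volume : Measure Circ).real (⋃ j ∈ Finset.Icc (-(k : ℤ)) k,
        Metric.closedBall (((arctan ((j : ℝ) / k) : ℝ) : Circ) + gArg (iPow r))
          (1 / (k * (n + 1)))) ≤ 6 / (n + 1) := by
      intro k hk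
      have hk1 : 1 ≤ k := (Finset.mem_Icc.1 hk).1
      have hk1' : (1 : ℝ) ≤ k := by exact_mod_cast hk1
      refine (measureReal_biUnion_finset_le _ _).trans ?_
      refine (Finset.sum_le_card_nsmul _ _ (2 * (1 / ((k : ℝ) * ((n : ℝ) + 1)))) ?_).trans ?_
      · intro j _
        exact real_closedBall_le _ (by positivity)
      · rw [Int.card_Icc, nsmul_eq_mul]
        have : ((((k : ℤ) + 1 - -(k : ℤ)).toNat : ℕ) : ℝ) = 2 * k + 1 := by
          have : ((k : ℤ) + 1 - -(k : ℤ)).toNat = 2 * k + 1 := by omega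
          rw [this]; push_cast; ring
        rw [this]
        rw [mul_div, mul_div, div_le_div_iff₀ (by positivity) (by positivity)]
        nlinarith [show (0 : ℝ) ≤ n from Nat.cast_nonneg n,
          mul_nonneg (show (0 : ℝ) ≤ n + 1 by positivity) (show (0 : ℝ) ≤ (k : ℝ) - 1 by linarith)]
    refine (Finset.sum_le_card_nsmul _ _ _ h2).trans ?_
    rw [Nat.card_Icc, nsmul_eq_mul]
    simp only [Nat.add_sub_cancel]
    have h3 : (⌊1 / (τ * (n + 1))⌋₊ : ℝ) ≤ 1 / (τ * (n + 1)) := Nat.floor_le (by positivity)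
    calc (⌊1 / (τ * (n + 1))⌋₊ : ℝ) * (6 / (n + 1)) ≤ 1 / (τ * (n + 1)) * (6 / (n + 1)) := by
          apply mul_le_mul_of_nonneg_right h3 (by positivity)
      _ = 6 / (τ * (n + 1) ^ 2) := by field_simp
  refine (Finset.sum_le_card_nsmul _ _ _ h1).trans ?_
  rw [Finset.card_range, nsmul_eq_mul]
  apply le_of_eq
  push_cast; ring

/-- directions whose cone contains a bad edge -/
def badSet (g : ℕ → ℤ) (x : ℕ) (τ : ℝ) : Set Circ :=
  {θ | ∃ p ∈ badEdges g x, cone θ τ p.1 ∧ cone θ τ p.2}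

theorem badSet_measure (g : ℕ → ℤ) (x : ℕ) {τ : ℝ} (hτ : 0 ≤ τ) :
    (volume : Measure Circ).real (badSet g x τ) ≤ (badEdges g x).card * (2 * τ) := by
  have hsub : badSet g x τ ⊆ ⋃ p ∈ badEdges g x, Metric.closedBall (gArg p.1) τ := by
    intro θ hθ
    obtain ⟨p, hp, h1, _⟩ := hθ
    simp only [Set.mem_iUnion]
    refine ⟨p, hp, ?_⟩
    rw [Metric.mem_closedBall, dist_comm, dist_eq_norm]
    exact h1.2
  refine (measureReal_mono hsub (measure_ne_top _ _)).trans ?_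
  refine (measureReal_biUnion_finset_le _ _).trans ?_
  refine (Finset.sum_le_card_nsmul _ _ (2 * τ) ?_).trans ?_
  · intro p _
    exact real_closedBall_le _ hτ
  · rw [nsmul_eq_mul]

end Pool.Agent.MP484c84Par
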