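import Pool.Agent.Lib.MP484c84Par.Main
import Pool.Agent.Lib.MP484c84Par.Tri

/-!
# Choice of parameters
-/

namespace Pool.Agent.MP484c84Par

open Real

lemma exists_pow2 {y : ℝ} (hy : 0 ≤ y) : ∃ t : ℕ, y ≤ ((2 ^ t : ℕ) : ℝ) ∧ ((2 ^ t : ℕ) : ℝ) ≤ 2 * y + 2 := by
  obtain ⟨n, h1, h2⟩ := exists_nat_pow_near (show (1 : ℝ) ≤ y + 1 by linarith)
    (show (1 : ℝ) < 2 by norm_num)
  refine ⟨n + 1, ?_, ?_⟩
  · push_cast; linarith
  · push_cast; rw [pow_succ]; linarith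

lemma edges_lower {g : ℕ → ℤ} (h : CM g) {k : GaussianInt} (hk : k ≠ 0) (hgk : F g k = -1)
    {x : ℕ} (hx : 1 ≤ x) {M : ℕ} (hM : 20 * exp (2 * √(log x)) ≤ M) (hkM : k.norm ≤ M)
    (hMx : 50000 * (M : ℝ) ^ 4 ≤ x) :
    (x : ℝ) ≤ 2065613 * (M : ℝ) ^ 6 * (badEdges g x).card := by
  set Λ := √(log x) with hΛ
  have hΛ0 : 0 ≤ Λ := sqrt_nonneg _
  have hx1 : (1 : ℝ) ≤ x := by exact_mod_cast hx
  have hlog : 0 ≤ log x := log_nonneg hx1
  have hΛ2 : Λ ^ 2 = log x := sq_sqrt hlog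
  obtain ⟨t, ht1, ht2⟩ := exists_pow2 hΛ0
  set q := 2 ^ t with hq
  have hq1 : 1 ≤ q := Nat.one_le_two_pow
  have hexp2 := quadratic_le_exp_of_nonneg (show (0 : ℝ) ≤ 2 * Λ by positivity)
  have hexp1 := add_one_le_exp Λ
  have hexp2' : exp (2 * Λ) = exp Λ * exp Λ := by rw [← exp_add]; ring_nf
  have hM20 : (20 : ℝ) ≤ M := by nlinarith
  have hM0 : (0 : ℝ) < M := by linarith
  have hM1 : (1 : ℝ) ≤ M := by linarith
  have hMn : 20 ≤ M := by exact_mod_cast hM20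
  -- H1
  have H1 : (2 * 2 ^ t + 1) * (2 ^ t + 2) ≤ M := by
    have : ((2 * q + 1) * (q + 2) : ℝ) ≤ M := by
      have hq0 : (0 : ℝ) ≤ q := Nat.cast_nonneg q
      calc ((2 * q + 1) * (q + 2) : ℝ) ≤ (2 * (2 * Λ + 2) + 1) * ((2 * Λ + 2) + 2) := by
            gcongr
        _ ≤ 20 * exp (2 * Λ) := by nlinarith
        _ ≤ M := hM
    exact_mod_cast this
  have hqM : 2 * q + 1 ≤ M := by nlinarith
  -- choice of n
  set n := Nat.sqrt (x / (8 * M ^ 2)) with hn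
  have h8M : 0 < 8 * M ^ 2 := by positivity
  have hn1 : 8 * M ^ 2 * n ^ 2 ≤ x := by
    have h1 : n * n ≤ x / (8 * M ^ 2) := Nat.sqrt_le _
    calc 8 * M ^ 2 * n ^ 2 = 8 * M ^ 2 * (n * n) := by ring
      _ ≤ 8 * M ^ 2 * (x / (8 * M ^ 2)) := Nat.mul_le_mul_left _ h1
      _ ≤ x := Nat.mul_div_le _ _
  have hn2 : x < 8 * M ^ 2 * (n + 1) ^ 2 := by
    have h1 : x / (8 * M ^ 2) < (n + 1) * (n + 1) := Nat.lt_succ_sqrt _
    have h2 : x < 8 * M ^ 2 * (x / (8 * M ^ 2) + 1) := Nat.lt_mul_div_succ x h8M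
    calc x < 8 * M ^ 2 * (x / (8 * M ^ 2) + 1) := h2
      _ ≤ 8 * M ^ 2 * ((n + 1) * (n + 1)) := Nat.mul_le_mul_left _ h1
      _ = _ := by ring
  have hn2' : (x : ℝ) < 8 * (M : ℝ) ^ 2 * ((n : ℝ) + 1) ^ 2 := by exact_mod_cast hn2
  have hn1' : 8 * (M : ℝ) ^ 2 * (n : ℝ) ^ 2 ≤ x := by exact_mod_cast hn1
  -- (n+1)^2 > 6250 M^2
  have hnbig : 6250 * (M : ℝ) ^ 2 < ((n : ℝ) + 1) ^ 2 := by
    have h1 : 8 * (M : ℝ) ^ 2 * (6250 * (M : ℝ) ^ 2) < 8 * (M : ℝ) ^ 2 * ((n : ℝ) + 1) ^ 2 := by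
      have h2 : 8 * (M : ℝ) ^ 2 * (6250 * (M : ℝ) ^ 2) = 50000 * (M : ℝ) ^ 4 := by ring
      rw [h2]
      exact lt_of_le_of_lt hMx hn2'
    exact lt_of_mul_lt_mul_left h1 (by positivity)
  have hnpos : 0 < n := by
    rcases Nat.eq_zero_or_pos n with h0 | h0
    · exfalso
      rw [h0] at hnbig
      norm_num at hnbig
      nlinarith
    · exact h0
  have hnr : (1 : ℝ) ≤ n := by exact_mod_cast hnpos
  set τ : ℝ := 3936 * (M : ℝ) ^ 2 / ((n : ℝ) + 1) ^ 2 with hτ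
  have hτ0 : 0 < τ := by positivity
  have hτ' : 2 * τ < π / 2 := by
    have h1 : τ < 3936 / 6250 := by
      rw [hτ, div_lt_div_iff₀ (by positivity) (by norm_num)]
      nlinarith
    have := pi_gt_d2
    linarith
  -- H2
  have H2 : ((M + 2 ^ t + 2 ^ t) ^ 2 + 1) * (2 * n ^ 2) ≤ x := by
    have h1 : (M + q + q) ^ 2 + 1 ≤ 4 * M ^ 2 := by
      have : M + q + q + 1 ≤ 2 * M := by omega
      nlinarith
    calc ((M + 2 ^ t + 2 ^ t) ^ 2 + 1) * (2 * n ^ 2) ≤ (4 * M ^ 2) * (2 * n ^ 2) :=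
          Nat.mul_le_mul_right _ h1
      _ = 8 * M ^ 2 * n ^ 2 := by ring
      _ ≤ x := hn1
  -- smallness
  have Hs : (q.factorial : ℝ) / (M : ℝ) ^ (q + 1) ≤ τ := by
    have h1 : (x : ℝ) * (q.factorial : ℝ) ≤ (M : ℝ) ^ (q + 1) := by
      have h2 : (x : ℝ) ≤ exp Λ ^ q := by
        rw [← exp_nat_mul]
        calc (x : ℝ) = exp (log x) := (exp_log (by linarith)).symm
          _ ≤ exp (q * Λ) := by
              apply exp_le_exp.2
              rw [← hΛ2, sq]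
              exact mul_le_mul_of_nonneg_right ht1 hΛ0
      have h3 : (q.factorial : ℝ) ≤ (q : ℝ) ^ q := by exact_mod_cast Nat.factorial_le_pow q
      have h4 : exp Λ * q ≤ M := by
        calc exp Λ * q ≤ exp Λ * (2 * exp Λ) := by
              gcongr; linarith
          _ = 2 * exp (2 * Λ) := by rw [hexp2']; ring
          _ ≤ 20 * exp (2 * Λ) := by
              have := exp_pos (2 * Λ)
              linarith
          _ ≤ M := hM
      calc (x : ℝ) * (q.factorial : ℝ) ≤ exp Λ ^ q * (q : ℝ) ^ q := by gcongr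
        _ = (exp Λ * q) ^ q := by rw [mul_pow]
        _ ≤ (M : ℝ) ^ q := by gcongr
        _ ≤ (M : ℝ) ^ (q + 1) := pow_le_pow_right₀ hM1 (by omega)
    have h5 : ((n : ℝ) + 1) ^ 2 ≤ 4 * (n : ℝ) ^ 2 := by nlinarith
    rw [hτ, div_le_div_iff₀ (by positivity) (by positivity)]
    have h6 : (0 : ℝ) ≤ (q.factorial : ℝ) := Nat.cast_nonneg _
    have hM2 : (1 : ℝ) ≤ (M : ℝ) ^ 2 := one_le_pow₀ hM1
    have h7 : ((n : ℝ) + 1) ^ 2 ≤ x := by
      have h9 : (4 : ℝ) ≤ 8 * (M : ℝ) ^ 2 := by linarith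
      have h10 : 4 * (n : ℝ) ^ 2 ≤ 8 * (M : ℝ) ^ 2 * (n : ℝ) ^ 2 :=
        mul_le_mul_of_nonneg_right h9 (by positivity)
      exact h5.trans (h10.trans hn1')
    have h8 : (1 : ℝ) ≤ 3936 * (M : ℝ) ^ 2 := by linarith
    calc (q.factorial : ℝ) * ((n : ℝ) + 1) ^ 2 ≤ (q.factorial : ℝ) * x :=
          mul_le_mul_of_nonneg_left h7 h6
      _ = x * (q.factorial : ℝ) := by ring
      _ ≤ (M : ℝ) ^ (q + 1) := h1
      _ = 1 * (M : ℝ) ^ (q + 1) := by ring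
      _ ≤ 3936 * (M : ℝ) ^ 2 * (M : ℝ) ^ (q + 1) :=
          mul_le_mul_of_nonneg_right h8 (by positivity)
  -- 2^q ≤ M
  have H2q : (2 : ℝ) ^ q ≤ M := by
    have e1 : (2 : ℝ) ≤ exp 1 := by linarith [add_one_le_exp (1 : ℝ)]
    calc (2 : ℝ) ^ q ≤ (exp 1) ^ q := by gcongr
      _ = exp (q * 1) := by rw [← exp_nat_mul]
      _ ≤ exp (1 + 1 + 2 * Λ) := by apply exp_le_exp.2; linarith
      _ = exp 1 * exp 1 * exp (2 * Λ) := by rw [exp_add, exp_add]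
      _ ≤ 3 * 3 * exp (2 * Λ) := by
          have := exp_one_lt_three.le
          gcongr
      _ ≤ 20 * exp (2 * Λ) := by
          have := exp_pos (2 * Λ)
          linarith
      _ ≤ M := hM
  have hW : (2 + 8 * M * 2 ^ q + 72 * M ^ 2 : ℝ) ≤ 82 * (M : ℝ) ^ 2 := by nlinarith
  have hkx : k.norm * (2 * (n : ℤ) ^ 2) ≤ x := by
    have h1 : 8 * (M : ℤ) ^ 2 * (n : ℤ) ^ 2 ≤ x := by exact_mod_cast hn1
    have h2 : (1 : ℤ) ≤ M := by exact_mod_cast (by omega : 1 ≤ M)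
    have h3 : 0 ≤ (n : ℤ) ^ 2 := by positivity
    have h4 : k.norm ≤ (M : ℤ) ^ 2 := hkM.trans (le_self_pow₀ h2 (by norm_num))
    have h5 : k.norm * (2 * (n : ℤ) ^ 2) ≤ (M : ℤ) ^ 2 * (2 * (n : ℤ) ^ 2) :=
      mul_le_mul_of_nonneg_right h4 (by positivity)
    have h6 : 0 ≤ (M : ℤ) ^ 2 * (n : ℤ) ^ 2 := by positivity
    linarith
  have hfinal : 2 * π ≤ (82 * (M : ℝ) ^ 2) * muErr g x n τ := by
    by_contra hcon
    push Not at hcon
    have h1 := main_explicit h hnpos hτ0 hτ' H1 H2 Hs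
      (lt_of_le_of_lt (mul_le_mul_of_nonneg_right hW (muErr_nonneg hnpos hτ0)) hcon) hk hkx
    rw [hgk] at h1
    norm_num at h1
  have hmu : (82 * (M : ℝ) ^ 2) * muErr g x n τ = 1 + 1291008 * (M : ℝ) ^ 4 /
      ((n : ℝ) + 1) ^ 2 * (badEdges g x).card := by
    unfold muErr
    rw [hτ]
    field_simp
    ring
  rw [hmu] at hfinal
  have h5 : 5 ≤ 1291008 * (M : ℝ) ^ 4 / ((n : ℝ) + 1) ^ 2 * (badEdges g x).card := by
    have := pi_gt_three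
    linarith
  rw [div_mul_eq_mul_div, le_div_iff₀ (by positivity)] at h5
  have h6 : (x : ℝ) * 5 ≤ 8 * (M : ℝ) ^ 2 * (1291008 * (M : ℝ) ^ 4 * (badEdges g x).card) := by
    calc (x : ℝ) * 5 ≤ (8 * (M : ℝ) ^ 2 * ((n : ℝ) + 1) ^ 2) * 5 := by
          gcongr
      _ = 8 * (M : ℝ) ^ 2 * (5 * ((n : ℝ) + 1) ^ 2) := by ring
      _ ≤ _ := by gcongr
  have h7 : 0 ≤ (M : ℝ) ^ 6 * (badEdges g x).card := by positivity
  linarith

lemma exists_gauss {p : ℕ} (hp : p.Prime) (hp1 : p = 2 ∨ p % 4 = 1) :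
    ∃ k : GaussianInt, k.norm = p := by
  have := Fact.mk hp
  obtain ⟨a, b, hab⟩ := Nat.Prime.sq_add_sq (p := p) (by omega)
  refine ⟨⟨a, b⟩, ?_⟩
  rw [norm_def']
  show (a : ℤ) * a + b * b = p
  rw [← hab]; push_cast; ring

/-- **Minus sign.** -/
theorem minus_bound {g : ℕ → ℤ} (h : CM g) {p : ℕ} (hp : p.Prime) (hp1 : p = 2 ∨ p % 4 = 1)
    (hgp : g p = -1) {x : ℕ} (hx : 1 ≤ x) :
    (x : ℝ) ≤ 10 ^ 42 * (p : ℝ) ^ 12 * exp (56 * √(log x)) * ((signSet g (-1) x).card + 1) := by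
  set Λ := √(log x) with hΛ
  have hΛ0 : 0 ≤ Λ := sqrt_nonneg _
  have hx1 : (1 : ℝ) ≤ x := by exact_mod_cast hx
  have hlog : 0 ≤ log x := log_nonneg hx1
  have hΛ2 : Λ ^ 2 = log x := sq_sqrt hlog
  have hp2 : (2 : ℝ) ≤ p := by exact_mod_cast hp.two_le
  have hE1 : 1 ≤ exp (2 * Λ) := one_le_exp (by positivity)
  set M := ⌈20 * (p : ℝ) * exp (2 * Λ)⌉₊ with hM
  have hM1 : 20 * (p : ℝ) * exp (2 * Λ) ≤ M := Nat.le_ceil _
  have hM2 : (M : ℝ) ≤ 21 * (p : ℝ) * exp (2 * Λ) := by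
    have h1 : (M : ℝ) < 20 * (p : ℝ) * exp (2 * Λ) + 1 := Nat.ceil_lt_add_one (by positivity)
    nlinarith
  have hM20 : 20 * exp (2 * Λ) ≤ M := by nlinarith
  have hpM : (p : ℝ) ≤ M := by nlinarith
  obtain ⟨k, hk⟩ := exists_gauss hp hp1
  have hk0 : k ≠ 0 := by
    rintro rfl
    simp at hk
    have := hp.pos
    omega
  have hgk : F g k = -1 := by
    unfold F
    rw [hk, Int.natAbs_natCast, hgp]
  have hkM : k.norm ≤ M := by rw [hk]; exact_mod_cast hpM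
  have hM0 : (0 : ℝ) ≤ M := Nat.cast_nonneg M
  have hexp8 : exp (2 * Λ) ^ 4 = exp (8 * Λ) := by rw [← exp_nat_mul]; congr 1; push_cast; ring
  have hexp24 : exp (2 * Λ) ^ 12 = exp (24 * Λ) := by rw [← exp_nat_mul]; congr 1; push_cast; ring
  set N : ℝ := ((signSet g (-1) x).card : ℝ) with hN
  have hN0 : 0 ≤ N := Nat.cast_nonneg _
  have hp4 : (1 : ℝ) ≤ (p : ℝ) ^ 8 := one_le_pow₀ (by linarith)
  rcases lt_or_ge (x : ℝ) (50000 * (M : ℝ) ^ 4) with hcase | hcase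
  · -- trivial case
    have h1 : (x : ℝ) ≤ 50000 * (21 * (p : ℝ) * exp (2 * Λ)) ^ 4 := by
      refine hcase.le.trans ?_
      gcongr
    have h2 : 50000 * (21 * (p : ℝ) * exp (2 * Λ)) ^ 4 = 9724050000 * (p : ℝ) ^ 4 * exp (8 * Λ) := by
      rw [mul_pow, mul_pow, hexp8]; ring
    have h3 : exp (8 * Λ) ≤ exp (56 * Λ) := exp_le_exp.2 (by linarith)
    have h4 : (p : ℝ) ^ 4 ≤ (p : ℝ) ^ 12 := pow_le_pow_right₀ (by linarith) (by norm_num)
    rw [h2] at h1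
    calc (x : ℝ) ≤ 9724050000 * (p : ℝ) ^ 4 * exp (8 * Λ) := h1
      _ ≤ 10 ^ 42 * (p : ℝ) ^ 12 * exp (56 * Λ) := by
          gcongr
          norm_num
      _ = 10 ^ 42 * (p : ℝ) ^ 12 * exp (56 * Λ) * (0 + 1) := by ring
      _ ≤ _ := by gcongr
  · have h1 := edges_lower h hk0 hgk hx hM20 hkM hcase
    have h2 := card_badEdges_le h x
    set S := ∑ n ∈ signSet g (-1) x, (tau (n ^ 2 + 1) : ℝ) with hS
    have h3 : ((badEdges g x).card : ℝ) ≤ 8 * S := by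
      have : (badEdges g x).card ≤ 8 * ∑ n ∈ signSet g (-1) x, tau (n ^ 2 + 1) := by
        unfold tau
        exact h2
      rw [hS]
      exact_mod_cast this
    have h4 : (x : ℝ) ≤ 16524904 * (M : ℝ) ^ 6 * S := by
      calc (x : ℝ) ≤ 2065613 * (M : ℝ) ^ 6 * (badEdges g x).card := h1
        _ ≤ 2065613 * (M : ℝ) ^ 6 * (8 * S) := by gcongr
        _ = _ := by ring
    have h5 := card_lower (x := x) hx (A := signSet g (-1) x) (Finset.filter_subset _ _)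
    rw [← hS, ← hN] at h5
    have hS0 : 0 ≤ S := Finset.sum_nonneg (fun i _ => Nat.cast_nonneg _)
    have hx0 : (0 : ℝ) < x := by linarith
    have h6 : (x : ℝ) * x ≤ x * (3276869823110592 * (M : ℝ) ^ 12 * (1 + log x) ^ 32 * N) := by
      calc (x : ℝ) * x ≤ (16524904 * (M : ℝ) ^ 6 * S) * (16524904 * (M : ℝ) ^ 6 * S) :=
            mul_le_mul h4 h4 hx0.le (by positivity)
        _ = 273072452209216 * (M : ℝ) ^ 12 * S ^ 2 := by ring
        _ ≤ 273072452209216 * (M : ℝ) ^ 12 * (N * (12 * x * (1 + log x) ^ 32)) :=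
            mul_le_mul_of_nonneg_left h5 (by positivity)
        _ = x * ((273072452209216 * 12) * (M : ℝ) ^ 12 * (1 + log x) ^ 32 * N) := by ring
        _ ≤ _ := by
            have : (273072452209216 * 12 : ℝ) ≤ 3276869823110592 := by norm_num
            gcongr
    have h7 := le_of_mul_le_mul_left h6 hx0
    have h8 : (1 + log x) ≤ 2 * exp Λ := by
      rw [← hΛ2]
      have := quadratic_le_exp_of_nonneg hΛ0
      linarith
    have h9 : (1 + log x) ^ 32 ≤ 2 ^ 32 * exp (32 * Λ) := by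
      calc (1 + log x) ^ 32 ≤ (2 * exp Λ) ^ 32 := by gcongr
        _ = 2 ^ 32 * exp (32 * Λ) := by
            rw [mul_pow, ← exp_nat_mul]; norm_num
    have h10 : (M : ℝ) ^ 12 ≤ 21 ^ 12 * (p : ℝ) ^ 12 * exp (24 * Λ) := by
      calc (M : ℝ) ^ 12 ≤ (21 * (p : ℝ) * exp (2 * Λ)) ^ 12 := by gcongr
        _ = _ := by rw [mul_pow, mul_pow, hexp24]
    have h11 : exp (24 * Λ) * exp (32 * Λ) = exp (56 * Λ) := by rw [← exp_add]; ring_nf
    have h12 : (M : ℝ) ^ 12 * (1 + log x) ^ 32 ≤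
        (21 ^ 12 * (p : ℝ) ^ 12 * exp (24 * Λ)) * (2 ^ 32 * exp (32 * Λ)) :=
      mul_le_mul h10 h9 (by positivity) (by positivity)
    have h13 : (21 ^ 12 * (p : ℝ) ^ 12 * exp (24 * Λ)) * (2 ^ 32 * exp (32 * Λ)) =
        21 ^ 12 * 2 ^ 32 * ((p : ℝ) ^ 12 * exp (56 * Λ)) := by rw [← h11]; ring
    rw [h13] at h12
    set Q := (p : ℝ) ^ 12 * exp (56 * Λ) with hQ
    have hQ0 : 0 ≤ Q := by positivity
    have h14 : (x : ℝ) ≤ 3276869823110592 * ((21 ^ 12 * 2 ^ 32 * Q) * N) := by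
      refine h7.trans (le_of_eq_of_le (by ring) (mul_le_mul_of_nonneg_left
        (mul_le_mul_of_nonneg_right h12 hN0) (by norm_num)))
    have h15 : (3276869823110592 * (21 ^ 12 * 2 ^ 32) : ℝ) ≤ 10 ^ 42 := by norm_num
    have h16 : 0 ≤ Q * N := mul_nonneg hQ0 hN0
    have h17 : 3276869823110592 * ((21 ^ 12 * 2 ^ 32 * Q) * N) ≤ 10 ^ 42 * (Q * N) := by
      have := mul_le_mul_of_nonneg_right h15 h16
      refine le_of_eq_of_le (by ring) this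
    have h18 : 10 ^ 42 * (Q * N) ≤ 10 ^ 42 * Q * (N + 1) := by
      have : (0 : ℝ) ≤ 10 ^ 42 * Q := by positivity
      rw [← mul_assoc]
      exact mul_le_mul_of_nonneg_left (by linarith) this
    have h19 : 10 ^ 42 * (p : ℝ) ^ 12 * exp (56 * Λ) * (N + 1) = 10 ^ 42 * Q * (N + 1) := by
      rw [hQ]; ring
    rw [h19]
    exact h14.trans (h17.trans h18)

end Pool.Agent.MP484c84Par
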