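import Pool.Agent.Lib.MP484c84Par.Basic

/-!
# The path lemma

Two lattice vectors `z, z'` in a convex cone with `F z ≠ F z'` force a bad edge inside the cone.
-/

namespace Pool.Agent.MP484c84Par

/-- abstract convexity of a set of Gaussian integers -/
def Convex' (C : GaussianInt → Prop) : Prop :=
  ∀ (z z' u : GaussianInt) (a b D : ℤ), 0 ≤ a → 0 ≤ b → 0 < D → u ≠ 0 →
    D * u.re = a * z.re + b * z'.re → D * u.im = a * z.im + b * z'.im → C z → C z' → C u

lemma crossG_swap (v w : GaussianInt) : crossG w v = - crossG v w := by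
  unfold crossG; ring

lemma exists_lattice_aux {z z' : GaussianInt} {D : ℤ} (hDd : D = crossG z z') (hD : 2 ≤ D)
    (e1 e2 : ℤ) (hne : ¬ (D ∣ (e1 * z'.im - e2 * z'.re) ∧ D ∣ (z.re * e2 - z.im * e1))) :
    ∃ (u : GaussianInt) (a b : ℤ), 0 ≤ a ∧ 0 ≤ b ∧ a < D ∧ b < D ∧ ¬ (a = 0 ∧ b = 0) ∧
      D * u.re = a * z.re + b * z'.re ∧ D * u.im = a * z.im + b * z'.im := by
  set a0 := e1 * z'.im - e2 * z'.re with ha0
  set b0 := z.re * e2 - z.im * e1 with hb0
  have hDpos : 0 < D := by omega
  refine ⟨⟨e1 - (a0 / D) * z.re - (b0 / D) * z'.re, e2 - (a0 / D) * z.im - (b0 / D) * z'.im⟩,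
    a0 % D, b0 % D, Int.emod_nonneg _ hDpos.ne', Int.emod_nonneg _ hDpos.ne',
    Int.emod_lt_of_pos _ hDpos, Int.emod_lt_of_pos _ hDpos, ?_, ?_, ?_⟩
  · rintro ⟨h1, h2⟩
    exact hne ⟨Int.dvd_of_emod_eq_zero h1, Int.dvd_of_emod_eq_zero h2⟩
  · have h1 : a0 % D = a0 - D * (a0 / D) := by rw [Int.emod_def]
    have h2 : b0 % D = b0 - D * (b0 / D) := by rw [Int.emod_def]
    have h3 : D * e1 = a0 * z.re + b0 * z'.re := by
      rw [hDd, ha0, hb0]; unfold crossG; ring
    rw [h1, h2]
    show D * (e1 - (a0 / D) * z.re - (b0 / D) * z'.re) = _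
    linear_combination h3
  · have h1 : a0 % D = a0 - D * (a0 / D) := by rw [Int.emod_def]
    have h2 : b0 % D = b0 - D * (b0 / D) := by rw [Int.emod_def]
    have h3 : D * e2 = a0 * z.im + b0 * z'.im := by
      rw [hDd, ha0, hb0]; unfold crossG; ring
    rw [h1, h2]
    show D * (e2 - (a0 / D) * z.im - (b0 / D) * z'.im) = _
    linear_combination h3

/-- lattice point of the triangle `0, z, z'` -/
lemma exists_lattice {z z' : GaussianInt} (hD : 2 ≤ crossG z z') :
    ∃ (u : GaussianInt) (a b : ℤ), 0 ≤ a ∧ 0 ≤ b ∧ a < crossG z z' ∧ b < crossG z z' ∧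
      a + b ≤ crossG z z' ∧ u ≠ 0 ∧
      crossG z z' * u.re = a * z.re + b * z'.re ∧ crossG z z' * u.im = a * z.im + b * z'.im := by
  set D := crossG z z' with hDd
  have key : ∃ (u : GaussianInt) (a b : ℤ), 0 ≤ a ∧ 0 ≤ b ∧ a < D ∧ b < D ∧ ¬ (a = 0 ∧ b = 0) ∧
      D * u.re = a * z.re + b * z'.re ∧ D * u.im = a * z.im + b * z'.im := by
    by_cases h1 : (D ∣ ((1 : ℤ) * z'.im - 0 * z'.re) ∧ D ∣ (z.re * 0 - z.im * 1))
    · by_cases h2 : (D ∣ ((0 : ℤ) * z'.im - 1 * z'.re) ∧ D ∣ (z.re * 1 - z.im * 0))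
      · exfalso
        obtain ⟨h1a, h1b⟩ := h1
        obtain ⟨h2a, h2b⟩ := h2
        have e1 : D ∣ z'.im := by simpa using h1a
        have e2 : D ∣ z.im := by simpa using h1b
        have e3 : D ∣ z'.re := by simpa using h2a
        have e4 : D ∣ z.re := by simpa using h2b
        obtain ⟨p1, hp1⟩ := e1
        obtain ⟨p2, hp2⟩ := e2
        obtain ⟨p3, hp3⟩ := e3
        obtain ⟨p4, hp4⟩ := e4
        have h3 : D = D * (D * (p4 * p1 - p2 * p3)) := by
          conv_lhs => rw [hDd]
          unfold crossG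
          rw [hp1, hp2, hp3, hp4]; ring
        have h4 : D * (p4 * p1 - p2 * p3) = 1 := by
          have hD0 : D ≠ 0 := by omega
          have : D * (D * (p4 * p1 - p2 * p3) - 1) = 0 := by linarith
          rcases mul_eq_zero.1 this with h | h
          · exact absurd h hD0
          · linarith
        have h5 : D ∣ 1 := ⟨_, h4.symm⟩
        have := Int.le_of_dvd one_pos h5
        omega
      · exact exists_lattice_aux hDd hD 0 1 h2
    · exact exists_lattice_aux hDd hD 1 0 h1
  obtain ⟨u, a, b, ha, hb, haD, hbD, hab, hu1, hu2⟩ := key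
  have hDpos : 0 < D := by omega
  have hne : ∀ (u : GaussianInt) (a b : ℤ), ¬ (a = 0 ∧ b = 0) →
      D * u.re = a * z.re + b * z'.re → D * u.im = a * z.im + b * z'.im → u ≠ 0 := by
    intro u a b hab h1 h2 hu
    have hur : u.re = 0 := by rw [hu]; rfl
    have hui : u.im = 0 := by rw [hu]; rfl
    rw [hur, mul_zero] at h1
    rw [hui, mul_zero] at h2
    apply hab
    have hb0 : D * b = 0 := by
      have : D * b = z.re * (a * z.im + b * z'.im) - z.im * (a * z.re + b * z'.re) := by
        rw [hDd]; unfold crossG; ring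
      rw [this, ← h1, ← h2]; ring
    have ha0 : D * a = 0 := by
      have : D * a = z'.im * (a * z.re + b * z'.re) - z'.re * (a * z.im + b * z'.im) := by
        rw [hDd]; unfold crossG; ring
      rw [this, ← h1, ← h2]; ring
    constructor
    · rcases mul_eq_zero.1 ha0 with h | h
      · omega
      · exact h
    · rcases mul_eq_zero.1 hb0 with h | h
      · omega
      · exact h
  by_cases hs : a + b ≤ D
  · exact ⟨u, a, b, ha, hb, haD, hbD, hs, hne u a b hab hu1 hu2, hu1, hu2⟩
  · push Not at hs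
    have h1 : D * (z.re + z'.re - u.re) = (D - a) * z.re + (D - b) * z'.re := by
      linear_combination -hu1
    have h2 : D * (z.im + z'.im - u.im) = (D - a) * z.im + (D - b) * z'.im := by
      linear_combination -hu2
    refine ⟨⟨z.re + z'.re - u.re, z.im + z'.im - u.im⟩, D - a, D - b, by omega, by omega,
      by omega, by omega, by omega, ?_, h1, h2⟩
    exact hne _ (D - a) (D - b) (by omega) h1 h2

lemma cross_zero {g : ℕ → ℤ} (h : CM g) {z z' : GaussianInt} (hz : z ≠ 0) (hz' : z' ≠ 0)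
    (h0 : crossG z z' = 0) : F g z = F g z' := by
  have h1 : F g (star z * z') = F g z * F g z' := F_mul_star h hz hz'
  have h2 : star z * z' = (((star z * z').re : ℤ) : GaussianInt) := by
    rw [Zsqrtd.ext_iff]
    refine ⟨by simp, ?_⟩
    rw [← crossG_eq, h0]; simp
  have h3 : star z * z' ≠ 0 := mul_ne_zero (by simpa using hz) hz'
  have h4 : (star z * z').re ≠ 0 := by
    intro h5
    rw [h5] at h2
    exact h3 (by simpa using h2)
  have h5 : F g z * F g z' = 1 := by
    rw [← h1, h2, F_intCast h h4]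
  rcases F_sign h hz with h6 | h6 <;> rcases F_sign h hz' with h7 | h7 <;>
    simp [h6, h7] at h5 ⊢

lemma norm_le_of_convex {z z' u : GaussianInt} {a b D x : ℤ} (ha : 0 ≤ a) (hb : 0 ≤ b) (hD : 0 < D)
    (hab : a + b ≤ D) (h1 : D * u.re = a * z.re + b * z'.re)
    (h2 : D * u.im = a * z.im + b * z'.im) (hz : z.norm ≤ x) (hz' : z'.norm ≤ x) :
    u.norm ≤ x := by
  rw [norm_def'] at *
  have e1 : D ^ 2 * (u.re * u.re + u.im * u.im) =
      a ^ 2 * (z.re * z.re + z.im * z.im) + b ^ 2 * (z'.re * z'.re + z'.im * z'.im)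
        + 2 * (a * b) * (z.re * z'.re + z.im * z'.im) := by
    linear_combination (D * u.re + (a * z.re + b * z'.re)) * h1 + (D * u.im + (a * z.im + b * z'.im)) * h2
  have e2 : z.re * z'.re + z.im * z'.im ≤ x := by
    nlinarith [sq_nonneg (z.re - z'.re), sq_nonneg (z.im - z'.im)]
  have hx : 0 ≤ x := by nlinarith [mul_self_nonneg z.re, mul_self_nonneg z.im]
  have hab0 : 0 ≤ a * b := mul_nonneg ha hb
  have e3 : D ^ 2 * (u.re * u.re + u.im * u.im) ≤ (a + b) ^ 2 * x := by
    rw [e1]
    have t1 := mul_le_mul_of_nonneg_left hz (sq_nonneg a)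
    have t2 := mul_le_mul_of_nonneg_left hz' (sq_nonneg b)
    have t3 := mul_le_mul_of_nonneg_left e2 (mul_nonneg zero_le_two hab0)
    nlinarith
  have e4 : (a + b) ^ 2 * x ≤ D ^ 2 * x := by
    apply mul_le_mul_of_nonneg_right _ hx
    nlinarith
  have e5 : D ^ 2 * (u.re * u.re + u.im * u.im) ≤ D ^ 2 * x := e3.trans e4
  exact le_of_mul_le_mul_left e5 (by positivity)

theorem path_aux {g : ℕ → ℤ} (h : CM g) {C : GaussianInt → Prop} (hC : Convex' C) (x : ℕ) (n : ℕ) :
    ∀ {z z' : GaussianInt}, z ≠ 0 → z' ≠ 0 → z.norm ≤ x → z'.norm ≤ x →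
    C z → C z' → F g z ≠ F g z' → crossG z z' = n →
    ∃ p ∈ badEdges g x, C p.1 ∧ C p.2 := by
  induction n using Nat.strong_induction_on with
  | _ n ih =>
    intro z z' hz0 hz0' hz hz' hCz hCz' hne hn
    rcases Nat.lt_or_ge n 2 with h2 | h2
    · interval_cases n
      · exact absurd (cross_zero h hz0 hz0' (by simpa using hn)) hne
      · exact ⟨(z, z'), mem_badEdges.2 ⟨hz, hz', by simpa using hn, hne⟩, hCz, hCz'⟩
    · obtain ⟨u, a, b, ha, hb, haD, hbD, hab, hu0, h1, h3⟩ :=
        exists_lattice (z := z) (z' := z') (by rw [hn]; exact_mod_cast h2)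
      set D := crossG z z' with hDd
      have hDpos : 0 < D := by omega
      have hCu : C u := hC z z' u a b D ha hb hDpos hu0 h1 h3 hCz hCz'
      have hnu : u.norm ≤ x := norm_le_of_convex ha hb hDpos hab h1 h3 hz hz'
      have hzu : crossG z u = b := by
        have : D * crossG z u = D * b := by
          have : D * crossG z u = z.re * (D * u.im) - z.im * (D * u.re) := by
            unfold crossG; ring
          rw [this, h1, h3, hDd]; unfold crossG; ring
        exact mul_left_cancel₀ hDpos.ne' this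
      have huz : crossG u z' = a := by
        have : D * crossG u z' = D * a := by
          have : D * crossG u z' = (D * u.re) * z'.im - (D * u.im) * z'.re := by
            unfold crossG; ring
          rw [this, h1, h3, hDd]; unfold crossG; ring
        exact mul_left_cancel₀ hDpos.ne' this
      by_cases hF : F g z = F g u
      · -- then `F u ≠ F z'`
        have hne' : F g u ≠ F g z' := by rw [← hF]; exact hne
        refine ih a.toNat (by omega) hu0 hz0' hnu hz' hCu hCz' hne' ?_
        rw [huz]; omega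
      · refine ih b.toNat (by omega) hz0 hu0 hz hnu hCz hCu hF ?_
        rw [hzu]; omega

theorem path {g : ℕ → ℤ} (h : CM g) {C : GaussianInt → Prop} (hC : Convex' C) (x : ℕ)
    {z z' : GaussianInt} (hz0 : z ≠ 0) (hz0' : z' ≠ 0) (hz : z.norm ≤ x) (hz' : z'.norm ≤ x)
    (hCz : C z) (hCz' : C z') (hne : F g z ≠ F g z') :
    ∃ p ∈ badEdges g x, C p.1 ∧ C p.2 := by
  rcases le_total 0 (crossG z z') with h0 | h0
  · exact path_aux h hC x (crossG z z').toNat hz0 hz0' hz hz' hCz hCz' hne (by omega)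
  · refine path_aux h hC x (crossG z' z).toNat hz0' hz0 hz' hz hCz' hCz hne.symm ?_
    rw [crossG_swap z z']; omega

end Pool.Agent.MP484c84Par
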