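import Pool.Agent.Lib.MP484c84Par.Meas

/-!
# Almost periods of a sign function on the circle
-/

namespace Pool.Agent.MP484c84Par

open Real MeasureTheory

/-- the measure of the set where `G (θ + a) ≠ σ G θ` -/
noncomputable def Dm (G : Circ → ℤ) (σ : ℤ) (a : Circ) : ℝ :=
  (volume : Measure Circ).real {θ | G (θ + a) ≠ σ * G θ}

lemma Dm_nonneg (G : Circ → ℤ) (σ : ℤ) (a : Circ) : 0 ≤ Dm G σ a := measureReal_nonneg

lemma real_preimage_add (S : Set Circ) (a : Circ) :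
    (volume : Measure Circ).real {θ | θ + a ∈ S} = (volume : Measure Circ).real S := by
  unfold Measure.real
  congr 1
  exact measure_preimage_add_right volume a S

lemma Dm_add (G : Circ → ℤ) {σ σ' : ℤ} (a b : Circ) :
    Dm G (σ * σ') (a + b) ≤ Dm G σ a + Dm G σ' b := by
  have hsub : {θ | G (θ + (a + b)) ≠ σ * σ' * G θ} ⊆
      {θ | (θ + b) ∈ {φ | G (φ + a) ≠ σ * G φ}} ∪ {θ | G (θ + b) ≠ σ' * G θ} := by
    intro θ hθ
    by_contra hcon
    simp only [Set.mem_union, Set.mem_ofPred_eq, not_or, not_not] at hcon hθ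
    apply hθ
    have : θ + (a + b) = θ + b + a := by abel
    rw [this, hcon.1, hcon.2]; ring
  unfold Dm
  refine (measureReal_mono hsub (measure_ne_top _ _)).trans ?_
  refine (measureReal_union_le _ _).trans ?_
  rw [real_preimage_add]

lemma Dm_neg (G : Circ → ℤ) {σ : ℤ} (hσ : σ * σ = 1) (a : Circ) : Dm G σ (-a) = Dm G σ a := by
  unfold Dm
  rw [← real_preimage_add {θ | G (θ + -a) ≠ σ * G θ} a]
  congr 1
  ext θ
  simp only [Set.mem_ofPred_eq, neg_add_cancel_right, add_neg_cancel_right]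
  constructor
  · intro h h2
    apply h
    rw [h2, ← mul_assoc, hσ, one_mul]
  · intro h h2
    apply h
    rw [h2, ← mul_assoc, hσ, one_mul]

lemma Dm_sub (G : Circ → ℤ) {σ σ' : ℤ} (hσ' : σ' * σ' = 1) (a b : Circ) :
    Dm G (σ * σ') (a - b) ≤ Dm G σ a + Dm G σ' b := by
  rw [sub_eq_add_neg]
  exact (Dm_add G a (-b)).trans (by rw [Dm_neg G hσ'])

lemma Dm_compl (G : Circ → ℤ) (hG : ∀ θ, G θ ≠ 0) (a : Circ) :
    2 * π ≤ Dm G 1 a + Dm G (-1) a := by
  have hsub : (Set.univ : Set Circ) ⊆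
      {θ | G (θ + a) ≠ 1 * G θ} ∪ {θ | G (θ + a) ≠ (-1) * G θ} := by
    intro θ _
    by_contra hcon
    simp only [Set.mem_union, Set.mem_ofPred_eq, not_or, not_not] at hcon
    have h1 := hcon.1
    rw [hcon.2] at h1
    have := hG θ
    omega
  have h2 : (volume : Measure Circ).real Set.univ = 2 * π := by
    rw [Measure.real, AddCircle.measure_univ, ENNReal.toReal_ofReal two_pi_pos.le]
  rw [← h2]
  refine (measureReal_mono hsub (measure_ne_top _ _)).trans ?_
  exact measureReal_union_le _ _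

lemma Dm_zero (G : Circ → ℤ) : Dm G 1 0 = 0 := by
  unfold Dm
  simp

lemma Dm_nsmul (G : Circ → ℤ) (a : Circ) (k : ℕ) : Dm G 1 (k • a) ≤ k * Dm G 1 a := by
  induction k with
  | zero => simp [Dm_zero]
  | succ k ih =>
    rw [succ_nsmul]
    have := Dm_add G (σ := 1) (σ' := 1) (k • a) a
    rw [one_mul] at this
    refine this.trans ?_
    push_cast
    linarith

/-- the chosen short vector in the cone of direction `θ` -/
noncomputable def zSel (n : ℕ) (τ : ℝ) (θ : Circ) : GaussianInt := by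
  classical
  exact if h : ∃ z : GaussianInt, cone θ τ z ∧ z.norm ≤ 2 * (n : ℤ) ^ 2 then h.choose else 1

lemma zSel_spec {n : ℕ} {τ : ℝ} {θ : Circ} (h : θ ∉ excSet n τ) :
    cone θ τ (zSel n τ θ) ∧ (zSel n τ θ).norm ≤ 2 * (n : ℤ) ^ 2 := by
  have h' : ∃ z : GaussianInt, cone θ τ z ∧ z.norm ≤ 2 * (n : ℤ) ^ 2 := by
    by_contra h2
    exact h h2
  unfold zSel
  rw [dif_pos h']
  exact h'.choose_spec

lemma zSel_ne {n : ℕ} {τ : ℝ} {θ : Circ} : zSel n τ θ ≠ 0 := by
  by_cases h : θ ∈ excSet n τ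
  · unfold zSel
    rw [dif_neg h]
    exact one_ne_zero
  · exact (zSel_spec h).1.1

/-- the sign function on the circle -/
noncomputable def GF (g : ℕ → ℤ) (n : ℕ) (τ : ℝ) (θ : Circ) : ℤ := F g (zSel n τ θ)

lemma GF_ne_zero {g : ℕ → ℤ} (h : CM g) (n : ℕ) (τ : ℝ) (θ : Circ) : GF g n τ θ ≠ 0 := by
  rcases F_sign h (zSel_ne (n := n) (τ := τ) (θ := θ)) with h1 | h1 <;> unfold GF <;> omega

/-- the error measure -/
noncomputable def muErr (g : ℕ → ℤ) (x n : ℕ) (τ : ℝ) : ℝ :=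
  48 / (τ * (n + 1) ^ 2) + (badEdges g x).card * (4 * τ)

section
variable {g : ℕ → ℤ} (h : CM g) {x n : ℕ} (hn : 0 < n) {τ : ℝ} (hτ : 0 < τ)
include h hn hτ

omit h in
lemma muErr_nonneg : 0 ≤ muErr g x n τ := by unfold muErr; positivity

theorem Dm_mul_le (hτ' : τ < π / 2) {k : GaussianInt} (hk : k ≠ 0)
    (hK : k.norm * (2 * (n : ℤ) ^ 2) ≤ x) :
    Dm (GF g n τ) (F g k) (gArg k) ≤ muErr g x n τ := by
  have hk1 : 1 ≤ k.norm := norm_pos' hk
  have hsub : {θ | GF g n τ (θ + gArg k) ≠ F g k * GF g n τ θ} ⊆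
      (excSet n τ ∪ {θ | θ + gArg k ∈ excSet n τ}) ∪ {θ | θ + gArg k ∈ badSet g x τ} := by
    intro θ hθ
    by_contra hcon
    simp only [Set.mem_union, Set.mem_ofPred_eq, not_or] at hcon hθ
    obtain ⟨⟨h1, h2⟩, h3⟩ := hcon
    obtain ⟨c1, n1⟩ := zSel_spec h1
    obtain ⟨c2, n2⟩ := zSel_spec h2
    apply h3
    have hx : (0 : ℤ) ≤ 2 * (n : ℤ) ^ 2 := by positivity
    refine path h (cone_convex _ hτ hτ') x (mul_ne_zero hk c1.1) c2.1 ?_ ?_ (cone_mul hk c1) c2 ?_
    · rw [Zsqrtd.norm_mul]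
      exact (mul_le_mul_of_nonneg_left n1 (by omega)).trans hK
    · refine n2.trans (le_trans ?_ hK)
      nlinarith
    · rw [F_mul h hk c1.1]
      exact fun h4 => hθ h4.symm
  unfold Dm
  refine (measureReal_mono hsub (measure_ne_top _ _)).trans ?_
  refine (measureReal_union_le _ _).trans ?_
  refine (add_le_add (measureReal_union_le _ _) le_rfl).trans ?_
  rw [real_preimage_add, real_preimage_add]
  have e1 := excSet_measure hn hτ
  have e2 := badSet_measure g x hτ.le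
  unfold muErr
  have e3 : (badEdges g x).card * (2 * τ) ≤ (badEdges g x).card * (4 * τ) := by
    apply mul_le_mul_of_nonneg_left _ (Nat.cast_nonneg _)
    linarith
  have e4 : 24 / (τ * ((n : ℝ) + 1) ^ 2) + 24 / (τ * ((n : ℝ) + 1) ^ 2)
      = 48 / (τ * ((n : ℝ) + 1) ^ 2) := by
    rw [← add_div]; norm_num
  linarith

theorem Dm_small_le (hτ' : 2 * τ < π / 2) (hx : 2 * n ^ 2 ≤ x) {t : ℝ} (ht : |t| ≤ τ) :
    Dm (GF g n τ) 1 (t : Circ) ≤ muErr g x n τ := by
  have hsub : {θ | GF g n τ (θ + (t : Circ)) ≠ 1 * GF g n τ θ} ⊆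
      (excSet n τ ∪ {θ | θ + (t : Circ) ∈ excSet n τ}) ∪ badSet g x (2 * τ) := by
    intro θ hθ
    by_contra hcon
    simp only [Set.mem_union, Set.mem_ofPred_eq, not_or] at hcon hθ
    obtain ⟨⟨h1, h2⟩, h3⟩ := hcon
    obtain ⟨c1, n1⟩ := zSel_spec h1
    obtain ⟨c2, n2⟩ := zSel_spec h2
    apply h3
    have hx' : 2 * (n : ℤ) ^ 2 ≤ x := by exact_mod_cast hx
    have ht' : ‖((t : ℝ) : Circ)‖ ≤ τ := (norm_coe_le t).trans ht
    refine path h (cone_convex _ (by linarith) hτ') x c2.1 c1.1 (n2.trans hx') (n1.trans hx')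
      (cone_shift (by linarith) c2) (cone_mono (by linarith) c1) ?_
    intro h4
    apply hθ
    rw [one_mul]
    exact h4
  unfold Dm
  refine (measureReal_mono hsub (measure_ne_top _ _)).trans ?_
  refine (measureReal_union_le _ _).trans ?_
  refine (add_le_add (measureReal_union_le _ _) le_rfl).trans ?_
  rw [real_preimage_add]
  have e1 := excSet_measure hn hτ
  have e2 := badSet_measure g x (τ := 2 * τ) (by linarith)
  unfold muErr
  have e3 : (badEdges g x).card * (2 * (2 * τ)) = (badEdges g x).card * (4 * τ) := by ring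
  have e4 : 24 / (τ * ((n : ℝ) + 1) ^ 2) + 24 / (τ * ((n : ℝ) + 1) ^ 2)
      = 48 / (τ * ((n : ℝ) + 1) ^ 2) := by
    rw [← add_div]; norm_num
  linarith

end

end Pool.Agent.MP484c84Par
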